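import Pool.Agent.J6H22.SL.Geo2

/-!
Project SL, item DL: lower bound for the probability of the complement.
-/

set_option autoImplicit false

namespace Pool.Agent.J6H22.SL

open Finset H974
open Pool.Agent.H160R2.CV Pool.Agent.H160R2.CV.Quad
open TH976 (sd sd_self sd_comm sd_tri)
open H973 (ES mem_ES BX mem_BX dlt dlt_pos)
open Pool.Agent.J6H18.GD (Jn Ct Rd GD eS)
open Pool.Agent.J6H18.SL (Sq WI Sep touch sqr cen arc ad gh Dt S_GDS S_JNL S_DL)
open Pool.Agent.Y989.SD (TD cir near disc pos nu ip SmW hf m_GA m_GB)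
open Pool.Agent.Y989.SD.GD (TD_mem cir_norm cir_mem)

theorem geo {f g : ℂ → ℂ} {M α : ℝ} (hf' : SmW f g M α) : ∃ K C0 : ℝ, 0 < K ∧ 0 < C0 ∧
    ∀ (ε θ1 θ2 : ℝ) (z : Vtx) (w : ℂ), Dt f K ε θ1 θ2 z w →
    ∃ (P : Vtx) (r s : ℕ) (a b c d : ℤ), 1 ≤ r ∧ 1 ≤ s ∧
      (∀ v, sd v P ≤ 3 * r + 1 → v ∈ Sq (TD f ε)) ∧
      (∀ v, sd v z ≤ 3 * s + 1 → v ∈ Sq (TD f ε)) ∧ 3 * r + 3 * s ≤ sd P z ∧
      (∀ u ∈ near f ε θ1 θ2, 3 * s + 2 ≤ sd u z) ∧
      (∀ y, inR a b c d y → y ∉ Sq (TD f ε) → (∃ v, cor y v ∧ v ∈ TD f ε) →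
        y ∈ touch f ε θ2 (θ1 + 2 * Real.pi)) ∧
      Rct (TD f ε) P r a b c d ∧
      gh w θ2 (θ1 + 2 * Real.pi) ≤
        C0 * ((r : ℝ) / (r + sd P z) * ((s : ℝ) / (s + sd P z))) := by
  obtain ⟨l, H, hl0, hH0, hlH, -, -, hK, hint⟩ := m_GA f g M α hf'
  have hl : ∀ z ∈ disc, ∀ w ∈ disc, l * ‖z - w‖ ≤ ‖f z - f w‖ := fun z hz w hw =>
    (hlH z hz w hw).1
  have hH : ∀ z ∈ disc, ∀ w ∈ disc, ‖f z - f w‖ ≤ H * ‖z - w‖ := fun z hz w hw =>
    (hlH z hz w hw).2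
  obtain ⟨h0, hh0, hcone⟩ := cone hf'
  obtain ⟨κ, hκ⟩ : ∃ κ, κ = min (min (2 * h0) (l / 8)) 1 := ⟨_, rfl⟩
  have κ0 : 0 < κ := by rw [hκ]; exact lt_min (lt_min (by linarith) (by linarith)) one_pos
  have κ1 : κ ≤ 2 * h0 := by rw [hκ]; exact (min_le_left _ _).trans (min_le_left _ _)
  have κ2 : κ ≤ l / 8 := by rw [hκ]; exact (min_le_left _ _).trans (min_le_right _ _)
  have κ3 : κ ≤ 1 := by rw [hκ]; exact min_le_right _ _
  obtain ⟨K, hKd⟩ : ∃ K, K = 4000 / κ + 24 / l := ⟨_, rfl⟩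
  have hK0 : 0 < K := by rw [hKd]; positivity
  have hK1 : 4000 ≤ κ * K := by
    have : κ * K = 4000 + κ * (24 / l) := by rw [hKd]; field_simp
    rw [this]
    have : 0 < κ * (24 / l) := by positivity
    linarith
  have hK2 : 24 ≤ l * K := by
    have : l * K = l * (4000 / κ) + 24 := by rw [hKd]; field_simp
    rw [this]
    have : 0 < l * (4000 / κ) := by positivity
    linarith
  obtain ⟨C1, hC1⟩ : ∃ C1, C1 = 5 / 4 * H + 1 := ⟨_, rfl⟩
  have hC10 : 0 < C1 := by rw [hC1]; positivity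
  refine ⟨K, (1 + 480 * C1 / κ) * (1 + 48 * C1 / l), hK0, by positivity,
    fun ε θ1 θ2 z w hDt => ?_⟩
  have hε := hDt.e0
  have hw1 : ‖w‖ < 1 := by
    have h1 := hDt.hw
    have h2 : 0 < K * ε := by positivity
    linarith
  have hwd : w ∈ disc := by
    unfold disc
    rw [mem_closedBall_zero_iff]
    exact hw1.le
  obtain ⟨δ, hδ⟩ : ∃ δ, δ = 1 - ‖w‖ := ⟨_, rfl⟩
  obtain ⟨L, hL⟩ : ∃ L, L = θ1 + 2 * Real.pi - θ2 := ⟨_, rfl⟩
  obtain ⟨θ0, l0, hl00, g1, g2, g3, g4, g5, g6, g7, g8⟩ :=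
    mid (w := w) hw1 (a := θ2) (b := θ1 + 2 * Real.pi) (by linarith [hDt.h21])
  obtain ⟨A, hA⟩ : ∃ A, A = ad w θ2 (θ1 + 2 * Real.pi) := ⟨_, rfl⟩
  have hgh : gh w θ2 (θ1 + 2 * Real.pi) = δ / (δ + A) * (L / (L + A)) := by
    unfold gh
    rw [← hA, ← hδ, ← hL]
  rw [← hL] at g4
  rw [← hA] at g3 g4 g5 g6 g7 g8
  have hKδ : K * ε ≤ δ := by rw [hδ]; exact hDt.hw
  have hKL : K * ε ≤ L := by rw [hL]; exact hDt.hJ
  rw [← hδ] at g7
  have hKε : 0 < K * ε := by positivity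
  have hδ0 : 0 < δ := by linarith
  have hL0 : 0 < L := by linarith
  have hA0 : 0 < A := by linarith
  have q1 : K * ε ≤ 4 * l0 := by
    rcases g4 with h | h
    · rw [h]; linarith
    · rw [h]; linarith
  obtain ⟨h, hh⟩ : ∃ h, h = κ * l0 := ⟨_, rfl⟩
  have q2 : 1000 * ε ≤ h := by
    have k1 := mul_le_mul_of_nonneg_right hK1 hε.le
    have k2 := mul_le_mul_of_nonneg_left q1 κ0.le
    have e1 : κ * (K * ε) = κ * K * ε := by ring
    rw [hh]
    linarith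
  have hh00 : 0 < h := by linarith
  have q3 : 24 * ε ≤ l * δ := by
    have k1 := mul_le_mul_of_nonneg_right hK2 hε.le
    have k2 := mul_le_mul_of_nonneg_left hKδ hl0.le
    linarith
  have q4 : h ≤ l / 8 * l0 := by rw [hh]; exact mul_le_mul_of_nonneg_right κ2 hl00.le
  have q5 : h ≤ l0 := by rw [hh]; exact mul_le_of_le_one_left hl00.le κ3
  have q6 : h ≤ h0 := by
    have : h ≤ 2 * h0 * l0 := by rw [hh]; exact mul_le_mul_of_nonneg_right κ1 hl00.le
    nlinarith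
  have q7 : l * l0 ≤ l * A / 4 := by
    have := mul_le_mul_of_nonneg_left g3 hl0.le
    linarith
  -- the boxes at the boundary
  obtain ⟨e, he, hce⟩ := hcone (cir θ0) (cir_norm θ0)
  obtain ⟨P, r, a, b, c, d, hr, r1, r2, r3, r4, r5, r6⟩ :=
    bgeo hK hε he q2 (hce h hh00 q6)
  -- the boxes at `z`
  obtain ⟨s, hs⟩ : ∃ s, s = ⌊l * δ / ε / 24⌋₊ := ⟨_, rfl⟩
  have hs0 : 24 ≤ l * δ / ε := by rw [le_div_iff₀ hε]; exact q3
  have hs1 : (s : ℝ) ≤ l * δ / ε / 24 := by rw [hs]; exact Nat.floor_le (by positivity)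
  have hs2 : l * δ / ε / 24 < s + 1 := by rw [hs]; exact Nat.lt_floor_add_one _
  have hs3 : 1 ≤ s := by
    rw [hs]
    refine Nat.le_floor ?_
    push_cast
    linarith
  have hs3' : (1 : ℝ) ≤ s := by exact_mod_cast hs3
  have e0 : ε * (l * δ / ε / 24) = l * δ / 24 := by field_simp
  have s1 : 24 * (ε * s) ≤ l * δ := by
    have := mul_le_mul_of_nonneg_left hs1 hε.le
    rw [e0] at this
    linarith
  have s2 : l * δ ≤ 48 * (ε * s) := by
    have k1 := mul_le_mul_of_nonneg_left hs2.le hε.le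
    rw [e0] at k1
    have k2 := mul_le_mul_of_nonneg_left hs3' hε.le
    linarith
  have hlδ : 0 < l * δ := by positivity
  -- the distance between the boxes
  obtain ⟨D, hD⟩ : ∃ D, D = sd P z := ⟨_, rfl⟩
  have p1 := pos_le hε P z
  have p2 := pos_ge hε P z
  rw [← hD] at p1 p2
  have p3 := cen_near hε z
  have hc0 := cir_mem θ0
  have p4 : ε * D ≤ C1 * A := by
    have e1 : pos ε P - pos ε z = (pos ε P - f (cir θ0)) + (f (cir θ0) - f w) +
        -(pos ε z - cen ε z) := by rw [hDt.hz]; ring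
    have k1 : ‖pos ε P - pos ε z‖ ≤ 5 / 4 * h + H * ‖cir θ0 - w‖ + ε := by
      rw [e1]
      refine (norm_add₃_le).trans ?_
      rw [norm_neg]
      have := hH _ hc0 w hwd
      linarith
    have k2 := mul_le_mul_of_nonneg_left g6 hH0.le
    have k3 : C1 * A = 5 / 4 * H * A + A := by rw [hC1]; ring
    rw [k3]
    linarith
  have p5 : 3 / 8 * (l * A) ≤ ε * D := by
    have e1 : f (cir θ0) - f w = -(pos ε P - f (cir θ0)) + (pos ε P - pos ε z) +
        (pos ε z - cen ε z) := by rw [hDt.hz]; ring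
    have k1 : ‖f (cir θ0) - f w‖ ≤ 5 / 4 * h + 2 * ε * D + ε := by
      rw [e1]
      refine (norm_add₃_le).trans ?_
      rw [norm_neg]
      linarith
    have k2 := hl _ hc0 w hwd
    have k3 := mul_le_mul_of_nonneg_left g5 hl0.le
    linarith
  have p6 : l * δ ≤ l * A := mul_le_mul_of_nonneg_left g7 hl0.le
  have p7 : 3 * r + 3 * s ≤ D := by
    have : ε * ((3 * r + 3 * s : ℕ) : ℝ) ≤ ε * (D : ℝ) := by
      push_cast
      have e1 : ε * (3 * (r : ℝ) + 3 * s) = 3 * (ε * r) + 3 * (ε * s) := by ring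
      rw [e1]
      linarith
    have h2 := le_of_mul_le_mul_left this hε
    exact_mod_cast h2
  refine ⟨P, r, s, a, b, c, d, hr, hs3, r4, ?_, ?_, ?_, ?_, r5, ?_⟩
  · intro v hv
    rw [Sq_iff]
    intro v' hv'
    have hv2 : sd v' z ≤ 3 * s + 2 := by
      unfold cor at hv'
      unfold sd at hv ⊢
      omega
    refine zbox hε hl hl0 hK hint hwd hDt.hz v' ?_
    rw [← hδ]
    have hv3 : (sd v' z : ℝ) ≤ 3 * s + 2 := by exact_mod_cast hv2
    have k1 := mul_le_mul_of_nonneg_left hv3 hε.le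
    have e1 : ε * (2 * (sd v' z : ℝ) + 1) = 2 * (ε * sd v' z) + ε := by ring
    have e2 : ε * (3 * (s : ℝ) + 2) = 3 * (ε * s) + 2 * ε := by ring
    rw [e1]
    rw [e2] at k1
    linarith
  · rw [← hD]; exact p7
  · intro u hu
    by_contra hlt
    push Not at hlt
    have h1 := nearz hε hl hl0 hwd hDt.hz hu
    rw [← hδ] at h1
    have hv3 : (sd u z : ℝ) ≤ 3 * s + 1 := by
      have : sd u z ≤ 3 * s + 1 := by omega
      exact_mod_cast this
    have k1 := mul_le_mul_of_nonneg_left hv3 hε.le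
    have e1 : ε * (2 * (sd u z : ℝ) + 3) = 2 * (ε * sd u z) + 3 * ε := by ring
    have e2 : ε * (3 * (s : ℝ) + 1) = 3 * (ε * s) + ε := by ring
    rw [e1] at h1
    rw [e2] at k1
    linarith
  · rintro y hy1 hy2 ⟨v, hv1, hv2⟩
    rw [Sq_iff] at hy2
    push Not at hy2
    obtain ⟨v', hv1', hv2'⟩ := hy2
    rw [TD_mem hK hε] at hv2 hv2'
    obtain ⟨θ, hθ⟩ := sqr_meet hK hint hε hv1 hv1' hv2 hv2'
    have k1 : ‖f (cir θ) - pos ε y‖ ≤ 2 * ε := by
      refine (Complex.norm_le_abs_re_add_abs_im _).trans ?_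
      obtain ⟨⟨a1, a2⟩, a3, a4⟩ := hθ
      simp only [Complex.sub_re, Complex.sub_im, pos]
      rw [abs_of_nonneg (by linarith), abs_of_nonneg (by linarith)]
      linarith
    have k2 := r6 y hy1
    have k3 : ‖f (cir θ) - f (cir θ0)‖ ≤ 2 * h := by
      have e1 : f (cir θ) - f (cir θ0) = (f (cir θ) - pos ε y) + (pos ε y - f (cir θ0)) := by ring
      rw [e1]
      refine (norm_add_le _ _).trans ?_
      linarith
    have k4 := hl _ (cir_mem θ) _ hc0
    have k5 : ‖cir θ - cir θ0‖ ≤ l0 / 4 := by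
      have : l * ‖cir θ - cir θ0‖ ≤ l * (l0 / 4) := by linarith
      exact le_of_mul_le_mul_left this hl0
    obtain ⟨θ', h1, h2⟩ := angle k5
    rw [abs_le] at h2
    refine ⟨θ', by linarith, by linarith, ?_⟩
    rw [h1]
    exact hθ
  · rw [hgh, ← hD]
    have hr0 : (0 : ℝ) < r := by exact_mod_cast (by omega : 0 < r)
    have hs00 : (0 : ℝ) < s := by exact_mod_cast (by omega : 0 < s)
    have hD0 : (0 : ℝ) < D := by exact_mod_cast (by omega : 0 < D)
    have f1 : δ / (δ + A) ≤ (1 + 48 * C1 / l) * ((s : ℝ) / (s + D)) := by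
      refine frac hδ0 hA0 hs00 hD0 ?_ ?_
      · have : 0 < 48 * C1 / l := by positivity
        linarith
      · have k1 : δ * (ε * D) ≤ δ * (C1 * A) := mul_le_mul_of_nonneg_left p4 hδ0.le
        have k2 : 48 * C1 / l * (l * δ * A) ≤ 48 * C1 / l * (48 * (ε * s) * A) := by
          refine mul_le_mul_of_nonneg_left (mul_le_mul_of_nonneg_right s2 hA0.le) (by positivity)
        have e1 : 48 * C1 / l * (l * δ * A) = 48 * (C1 * δ * A) := by field_simp
        rw [e1] at k2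
        have k3 : ε * (δ * D) ≤ ε * ((1 + 48 * C1 / l) * (s * A)) := by
          have e2 : ε * ((1 + 48 * C1 / l) * (s * A)) =
              ε * (s * A) + 48 * C1 / l * (ε * s * A) := by ring
          rw [e2]
          have k4 : 0 < ε * (s * A) := by positivity
          have k5 : 48 * C1 / l * (48 * (ε * s) * A) = 48 * (48 * C1 / l * (ε * s * A)) := by ring
          rw [k5] at k2
          nlinarith
        exact le_of_mul_le_mul_left k3 hε
    have f2 : L / (L + A) ≤ (1 + 480 * C1 / κ) * ((r : ℝ) / (r + D)) := by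
      have r2' : κ * l0 ≤ 120 * (ε * r) := by rw [← hh]; exact r2
      rcases g4 with h4 | h4
      · -- `l0 = A / 4`
        have k1 : L / (L + A) ≤ 1 := by
          rw [div_le_one (by positivity)]
          linarith
        refine k1.trans ?_
        rw [← mul_div_assoc, le_div_iff₀ (by positivity), one_mul]
        have k2 : 480 * C1 / κ * (κ * l0) ≤ 480 * C1 / κ * (120 * (ε * r)) :=
          mul_le_mul_of_nonneg_left r2' (by positivity)
        have e1 : 480 * C1 / κ * (κ * l0) = 480 * C1 * l0 := by field_simp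
        rw [e1] at k2
        have k3 : ε * (r + D) ≤ ε * ((1 + 480 * C1 / κ) * r) := by
          have e2 : ε * ((1 + 480 * C1 / κ) * r) = ε * r + 480 * C1 / κ * (ε * r) := by ring
          rw [e2]
          have k5 : 480 * C1 / κ * (120 * (ε * r)) = 120 * (480 * C1 / κ * (ε * r)) := by ring
          rw [k5] at k2
          rw [h4] at k2
          nlinarith
        exact le_of_mul_le_mul_left k3 hε
      · refine frac hL0 hA0 hr0 hD0 ?_ ?_
        · have : 0 < 480 * C1 / κ := by positivity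
          linarith
        · have k1 : L * (ε * D) ≤ L * (C1 * A) := mul_le_mul_of_nonneg_left p4 hL0.le
          have k2 : 480 * C1 / κ * (κ * l0 * A) ≤ 480 * C1 / κ * (120 * (ε * r) * A) := by
            refine mul_le_mul_of_nonneg_left (mul_le_mul_of_nonneg_right r2' hA0.le) (by positivity)
          have e1 : 480 * C1 / κ * (κ * l0 * A) = 480 * (C1 * l0 * A) := by field_simp
          rw [e1] at k2
          have k3 : ε * (L * D) ≤ ε * ((1 + 480 * C1 / κ) * (r * A)) := by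
            have e2 : ε * ((1 + 480 * C1 / κ) * (r * A)) =
                ε * (r * A) + 480 * C1 / κ * (ε * r * A) := by ring
            rw [e2]
            have k4 : 0 < ε * (r * A) := by positivity
            have k5 : 480 * C1 / κ * (120 * (ε * r) * A) =
              120 * (480 * C1 / κ * (ε * r * A)) := by ring
            rw [k5, h4] at k2
            nlinarith
          exact le_of_mul_le_mul_left k3 hε
    have e1 : (1 + 480 * C1 / κ) * (1 + 48 * C1 / l) *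
        ((r : ℝ) / (r + D) * ((s : ℝ) / (s + D))) =
        (1 + 48 * C1 / l) * ((s : ℝ) / (s + D)) * ((1 + 480 * C1 / κ) * ((r : ℝ) / (r + D))) := by
      ring
    rw [e1]
    exact mul_le_mul f1 f2 (by positivity) (by positivity)

/-- Item DL. -/
theorem t_DL : S_GDS → S_JNL → S_DL := by
  intro hG hJ f g M α hf'
  obtain ⟨cG, ε0, κ, k, hcG, hε0, hGD⟩ := hG f g M α hf'
  obtain ⟨c', hc', hJ'⟩ := hJ κ k
  obtain ⟨K, C0, hK, hC0, hgeo⟩ := geo hf'
  have hd0 := dlt_pos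
  refine ⟨K, c' * dlt ^ 4 * dlt ^ 4 * dlt / C0 ^ (1 / 3 : ℝ), ε0, hK, by positivity, hε0,
    fun ε θ1 θ2 z w hε hDt => ?_⟩
  obtain ⟨P, r, s, a, b, c, d, hr, hs, hP, hz, hD, hI, ht, hR, hgh⟩ := hgeo ε θ1 θ2 z w hDt
  obtain ⟨D, hDD⟩ : ∃ D, D = sd P z := ⟨_, rfl⟩
  have m1 : ∀ u ∈ BX P r, u ∈ Sq (TD f ε) := by
    intro u hu
    apply hP
    rw [mem_BX] at hu
    unfold sd
    omega
  have m2 : ∀ u ∈ BX z s, u ∈ Sq (TD f ε) := by
    intro u hu
    apply hz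
    rw [mem_BX] at hu
    unfold sd
    omega
  have h1 := hJ' (Sq (TD f ε)) ⌊cG / ε⌋₊ (hGD ε hDt.e0 hε) (BX P r) (BX z s) P z r s D m1 m2
    (Ct_BX P r) (Ct_BX z s) (Rd_BX P hr) (Rd_BX z hs) (by omega) hDD.symm
  obtain ⟨x, hx⟩ : ∃ x : ℝ, x = (r : ℝ) / (r + D) := ⟨_, rfl⟩
  obtain ⟨y, hy⟩ : ∃ y : ℝ, y = (s : ℝ) / (s + D) := ⟨_, rfl⟩
  have hx0 : 0 ≤ x := by rw [hx]; positivity
  have hy0 : 0 ≤ y := by rw [hy]; positivity
  rw [← hDD, ← hx, ← hy] at hgh
  rw [← hx, ← hy] at h1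
  have h2 := prob_lower hr hs hP hz hD hI ht hR (by positivity) h1
  refine le_trans ?_ h2
  have hgh0 : 0 ≤ gh w θ2 (θ1 + 2 * Real.pi) := by
    have k1 : 0 < 1 - ‖w‖ := lt_of_lt_of_le (mul_pos hK hDt.e0) hDt.hw
    have k2 : 0 < θ1 + 2 * Real.pi - θ2 := lt_of_lt_of_le (mul_pos hK hDt.e0) hDt.hJ
    have k3 : 0 ≤ ad w θ2 (θ1 + 2 * Real.pi) := Metric.infDist_nonneg
    unfold gh
    positivity
  have h3 : gh w θ2 (θ1 + 2 * Real.pi) ^ (1 / 3 : ℝ) ≤
      C0 ^ (1 / 3 : ℝ) * (x ^ (1 / 3 : ℝ) * y ^ (1 / 3 : ℝ)) := by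
    refine (Real.rpow_le_rpow hgh0 hgh (by norm_num)).trans (le_of_eq ?_)
    rw [Real.mul_rpow hC0.le (by positivity), Real.mul_rpow hx0 hy0]
  have hC3 : 0 < C0 ^ (1 / 3 : ℝ) := Real.rpow_pos_of_pos hC0 _
  calc c' * dlt ^ 4 * dlt ^ 4 * dlt / C0 ^ (1 / 3 : ℝ) * gh w θ2 (θ1 + 2 * Real.pi) ^ (1 / 3 : ℝ)
      ≤ c' * dlt ^ 4 * dlt ^ 4 * dlt / C0 ^ (1 / 3 : ℝ) *
        (C0 ^ (1 / 3 : ℝ) * (x ^ (1 / 3 : ℝ) * y ^ (1 / 3 : ℝ))) :=
        mul_le_mul_of_nonneg_left h3 (by positivity)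
    _ = c' * (x ^ (1 / 3 : ℝ) * y ^ (1 / 3 : ℝ)) * dlt ^ 4 * dlt ^ 4 * dlt := by
        field_simp

end Pool.Agent.J6H22.SL
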