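import Pool.Agent.J6H22.SL.Prob
import Pool.Agent.Y989.SD.Main

/-!
Project SL, item DL: the geometry of the domain near the middle of the boundary arc.
-/

set_option autoImplicit false

namespace Pool.Agent.J6H22.SL

open Finset H974
open TH976 (sd sd_self sd_comm sd_tri)
open H973 (ES mem_ES BX mem_BX)
open Pool.Agent.J6H18.SL (Sq WI Sep touch sqr cen arc ad gh Dt)
open Pool.Agent.Y989.SD (TD cir near disc pos nu ip SmW m_GA m_GB)
open Pool.Agent.Y989.SD.GD (TD_mem dir dir_sq nu_norm cir_norm cir_mem small)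
open Pool.Agent.Y989.SD.GB (ip_add ip_le)

/-- the complex number of a direction -/
noncomputable def cx (e : Vtx) : ℂ := ⟨e.1, e.2⟩

/-- the four directions -/
def Dir (e : Vtx) : Prop := e = (0, 1) ∨ e = (1, 0) ∨ e = (0, -1) ∨ e = (-1, 0)

theorem norm_cx {e : Vtx} (he : Dir e) : ‖cx e‖ = 1 := by
  have h1 := dir_sq he
  have h2 : ‖cx e‖ ^ 2 = 1 := by
    rw [← Complex.normSq_eq_norm_sq, Complex.normSq_apply]
    simp only [cx]
    linarith
  have h3 := norm_nonneg (cx e)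
  nlinarith

/-- a direction which points into the domain -/
theorem good_dir {a : ℂ} (ha : ‖a‖ = 1) : ∃ e : Vtx, Dir e ∧ 7 / 10 ≤ ip a (cx e) := by
  obtain ⟨e, he, h⟩ := dir a
  refine ⟨e, he, ?_⟩
  have h1 : a.re ^ 2 + a.im ^ 2 = 1 := by
    have h2 : ‖a‖ ^ 2 = 1 := by rw [ha]; norm_num
    rw [← Complex.normSq_eq_norm_sq, Complex.normSq_apply] at h2
    linarith
  unfold ip cx
  simp only
  have h3 := dir_sq he
  obtain ⟨x, hx⟩ : ∃ x, x = a.re * (e.2 : ℝ) - a.im * (e.1 : ℝ) := ⟨_, rfl⟩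
  obtain ⟨y, hy⟩ : ∃ y, y = a.re * (e.1 : ℝ) + a.im * (e.2 : ℝ) := ⟨_, rfl⟩
  rw [← hx, ← hy] at h
  rw [← hy]
  have h4 : x ^ 2 + y ^ 2 = 1 := by
    rw [hx, hy]
    linear_combination (a.re ^ 2 + a.im ^ 2) * h3 + h1
  have h5 : x ^ 2 ≤ y ^ 2 := by
    have := abs_nonneg x
    rw [← sq_abs x]
    exact pow_le_pow_left₀ this h 2
  have h6 : 0 ≤ y := (abs_nonneg x).trans h
  nlinarith

/-- the domain near the boundary point `f w0` -/
theorem cone {f g : ℂ → ℂ} {M α : ℝ} (hf : SmW f g M α) : ∃ h0 : ℝ, 0 < h0 ∧ ∀ w0 : ℂ, ‖w0‖ = 1 →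
    ∃ e : Vtx, Dir e ∧ ∀ h : ℝ, 0 < h → h ≤ h0 → ∀ ξ : ℂ, ‖ξ‖ ≤ h / 8 →
      f w0 + (h * cx e + ξ) ∈ f '' disc ∧ f w0 + (-(h * cx e) + ξ) ∉ f '' disc := by
  obtain ⟨ρ, C, hρ, hC, hB⟩ := m_GB f g M α hf
  obtain ⟨x0, hx0, hsm⟩ := small hC hf.al0
  refine ⟨min ρ x0 / 2, by positivity, fun w0 hw0 => ?_⟩
  have hw0d : w0 ∈ disc := by
    unfold disc
    rw [mem_closedBall_zero_iff, hw0]
  obtain ⟨e, he, hip⟩ := good_dir (nu_norm (g := g) hw0 (hf.ne _ hw0d))
  refine ⟨e, he, fun h hh0 hh ξ hξ => ?_⟩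
  have h1 : 2 * h ≤ ρ := by
    have := min_le_left ρ x0
    linarith
  have h2 : 2 * h ≤ x0 := by
    have := min_le_right ρ x0
    linarith
  have hcx := norm_cx he
  have hn : ‖(h : ℂ) * cx e‖ = h := by
    rw [norm_mul, hcx, mul_one, Complex.norm_real, Real.norm_eq_abs, abs_of_pos hh0]
  have hip1 : ip (nu g w0) (h * cx e) = h * ip (nu g w0) (cx e) := by
    unfold ip
    simp only [Complex.mul_re, Complex.mul_im, Complex.ofReal_re, Complex.ofReal_im]
    ring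
  have hξ1 := abs_le.mp ((ip_le (nu g w0) ξ).trans
    (by rw [nu_norm (g := g) hw0 (hf.ne _ hw0d), one_mul]))
  have hprod : h * (7 / 10) ≤ h * ip (nu g w0) (cx e) := mul_le_mul_of_nonneg_left hip hh0.le
  constructor
  · have k1 : ‖(h : ℂ) * cx e + ξ‖ ≤ 2 * h := by
      refine (norm_add_le _ _).trans ?_
      rw [hn]
      linarith
    have e1 : f w0 + (h * cx e + ξ) - f w0 = h * cx e + ξ := by ring
    refine (hB w0 hw0 (f w0 + (h * cx e + ξ)) (by rw [e1]; linarith)).2 ?_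
    rw [e1, ip_add, hip1]
    have k2 := hsm _ (norm_nonneg _) (k1.trans h2)
    linarith
  · intro hin
    have k1 : ‖-((h : ℂ) * cx e) + ξ‖ ≤ 2 * h := by
      refine (norm_add_le _ _).trans ?_
      rw [norm_neg, hn]
      linarith
    have e1 : f w0 + (-(h * cx e) + ξ) - f w0 = -(h * cx e) + ξ := by ring
    have k3 := (hB w0 hw0 (f w0 + (-(h * cx e) + ξ)) (by rw [e1]; linarith)).1 hin
    rw [e1, ip_add] at k3
    have e2 : ip (nu g w0) (-(h * cx e)) = -(h * ip (nu g w0) (cx e)) := by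
      rw [← hip1]
      unfold ip
      simp only [Complex.neg_re, Complex.neg_im]
      ring
    rw [e2] at k3
    have k2 := hsm _ (norm_nonneg _) (k1.trans h2)
    linarith

/-- the lattice point below `p` -/
noncomputable def fl (ε : ℝ) (p : ℂ) : Vtx := (⌊p.re / ε⌋, ⌊p.im / ε⌋)

theorem fl_near {ε : ℝ} (hε : 0 < ε) (p : ℂ) (v : Vtx) {n : ℕ} (h : sd v (fl ε p) ≤ n) :
    ‖pos ε v - p‖ ≤ 2 * ε * (n + 1) := by
  have key : ∀ (m : ℤ) (x : ℝ), (m - ⌊x / ε⌋).natAbs ≤ n → |ε * m - x| ≤ ε * (n + 1) := by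
    intro m x hm
    have h1 : |((m - ⌊x / ε⌋ : ℤ) : ℝ)| ≤ n := by
      rw [← Int.cast_abs]
      have : |m - ⌊x / ε⌋| ≤ (n : ℤ) := by
        rw [Int.abs_eq_natAbs]
        exact_mod_cast hm
      exact_mod_cast this
    have h2 := Int.floor_le (x / ε)
    have h3 := Int.lt_floor_add_one (x / ε)
    have h4 : |(m : ℝ) - x / ε| ≤ n + 1 := by
      push_cast at h1
      rw [abs_le] at h1 ⊢
      constructor <;> linarith
    have h5 : ε * m - x = ε * (m - x / ε) := by field_simp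
    rw [h5, abs_mul, abs_of_pos hε]
    exact mul_le_mul_of_nonneg_left h4 hε.le
  unfold sd fl at h
  simp only [Nat.max_le] at h
  refine (Complex.norm_le_abs_re_add_abs_im _).trans ?_
  have h1 := key v.1 p.re h.1
  have h2 := key v.2 p.im h.2
  simp only [Complex.sub_re, Complex.sub_im, pos]
  linarith

theorem cen_near {ε : ℝ} (hε : 0 < ε) (z : Vtx) : ‖pos ε z - cen ε z‖ ≤ ε := by
  refine (Complex.norm_le_abs_re_add_abs_im _).trans ?_
  simp only [Complex.sub_re, Complex.sub_im, pos, cen]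
  have e1 : ε * (z.1 : ℝ) - ε * (z.1 + 1 / 2) = -(ε / 2) := by ring
  have e2 : ε * (z.2 : ℝ) - ε * (z.2 + 1 / 2) = -(ε / 2) := by ring
  rw [e1, e2, abs_neg, abs_of_pos (by positivity)]
  linarith

/-- a segment from the domain to its complement meets the boundary curve -/
theorem seg_pt {f : ℂ → ℂ} (hK : IsCompact (f '' disc))
    (hint : ∀ w, ‖w‖ < 1 → f w ∈ interior (f '' disc)) {z z' : ℂ} (hz : z ∈ f '' disc)
    (hz' : z' ∉ f '' disc) : ∃ θ s : ℝ, 0 ≤ s ∧ s ≤ 1 ∧ f (cir θ) = z + (s : ℂ) * (z' - z) := by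
  set γ : ℝ → ℂ := fun t => z + (t : ℂ) * (z' - z) with hγ
  have hγc : Continuous γ := by rw [hγ]; fun_prop
  set S : Set ℝ := Set.Icc 0 1 ∩ γ ⁻¹' (f '' disc) with hS
  have hSc : IsCompact S := isCompact_Icc.inter_right (hK.isClosed.preimage hγc)
  have h0 : (0 : ℝ) ∈ S := ⟨⟨le_rfl, zero_le_one⟩, by simpa [hγ] using hz⟩
  have hs := hSc.sSup_mem ⟨0, h0⟩
  set s := sSup S with hsd
  have hs1 : s < 1 := by
    refine lt_of_le_of_ne hs.1.2 fun h => hz' ?_
    have := hs.2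
    rw [h] at this
    simpa [hγ] using this
  obtain ⟨w, hw, hws⟩ := hs.2
  have hw1 : ‖w‖ = 1 := by
    have hle : ‖w‖ ≤ 1 := by
      have := hw
      unfold disc at this
      rwa [mem_closedBall_zero_iff] at this
    refine le_antisymm hle (not_lt.1 fun hlt => ?_)
    have h1 := hint w hlt
    rw [hws] at h1
    have h2 : ∀ᶠ t in nhdsWithin s (Set.Ioi s), γ t ∈ interior (f '' disc) :=
      nhdsWithin_le_nhds (hγc.continuousAt (isOpen_interior.mem_nhds h1))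
    have h3 : ∀ᶠ t in nhdsWithin s (Set.Ioi s), t ∈ Set.Ioo s 1 := Ioo_mem_nhdsGT hs1
    obtain ⟨t, ht, ht2⟩ := (h2.and h3).exists
    have ht3 : γ t ∈ f '' disc := interior_subset ht
    have h4 : t ∈ S := ⟨⟨by linarith [hs.1.1, ht2.1], ht2.2.le⟩, ht3⟩
    exact absurd (le_csSup hSc.bddAbove h4) (not_le.2 ht2.1)
  refine ⟨Complex.arg w, s, hs.1.1, hs1.le, ?_⟩
  have h1 : cir (Complex.arg w) = w := by
    unfold cir
    have := Complex.norm_mul_exp_arg_mul_I w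
    rwa [hw1, Complex.ofReal_one, one_mul] at this
  rw [h1, hws]

/-- a face with a corner inside and a corner outside meets the boundary curve -/
theorem sqr_meet {f : ℂ → ℂ} (hK : IsCompact (f '' disc))
    (hint : ∀ w, ‖w‖ < 1 → f w ∈ interior (f '' disc)) {ε : ℝ} (hε : 0 < ε) {y v v' : Vtx}
    (hv : cor y v) (hv' : cor y v') (hin : pos ε v ∈ f '' disc) (hout : pos ε v' ∉ f '' disc) :
    ∃ θ : ℝ, f (cir θ) ∈ sqr ε y := by
  obtain ⟨θ, s, hs0, hs1, h⟩ := seg_pt hK hint hin hout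
  refine ⟨θ, ?_⟩
  have key : ∀ (m a b : ℤ), (a = m ∨ a = m + 1) → (b = m ∨ b = m + 1) →
      ε * (m : ℝ) ≤ ε * a + s * (ε * b - ε * a) ∧
      ε * a + s * (ε * b - ε * a) ≤ ε * ((m : ℝ) + 1) := by
    intro m a b ha hb
    have h1 : 0 ≤ s * ε := by positivity
    have h2 : 0 ≤ (1 - s) * ε := mul_nonneg (by linarith) hε.le
    rcases ha with rfl | rfl <;> rcases hb with rfl | rfl <;> push_cast <;>
      constructor <;> nlinarith
  rw [h]
  obtain ⟨h1, h2⟩ := hv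
  obtain ⟨h3, h4⟩ := hv'
  have k1 := key y.1 v.1 v'.1 h1 h3
  have k2 := key y.2 v.2 v'.2 h2 h4
  unfold sqr
  simp only [Set.mem_ofPred_eq, Complex.add_re, Complex.add_im, Complex.mul_re, Complex.mul_im,
    Complex.ofReal_re, Complex.ofReal_im, Complex.sub_re, Complex.sub_im, pos, zero_mul, sub_zero,
    add_zero]
  exact ⟨k1, k2⟩

/-- the angle of a point of the circle close to `cir θ0` -/
theorem angle {θ θ0 t : ℝ} (h : ‖cir θ - cir θ0‖ ≤ t) : ∃ θ' : ℝ, cir θ' = cir θ ∧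
    |θ' - θ0| ≤ 2 * t := by
  have hper : ∀ (x : ℝ) (n : ℤ), cir (x + n * (2 * Real.pi)) = cir x := by
    intro x n
    unfold cir
    have e : ((x + n * (2 * Real.pi) : ℝ) : ℂ) * Complex.I =
        (x : ℂ) * Complex.I + n * (2 * Real.pi * Complex.I) := by
      push_cast
      ring
    rw [e, Complex.exp_add, Complex.exp_int_mul_two_pi_mul_I, mul_one]
  have hpi := Real.pi_pos
  obtain ⟨n, hn⟩ : ∃ n : ℤ, n = round ((θ0 - θ) / (2 * Real.pi)) := ⟨_, rfl⟩
  have hr := abs_sub_round ((θ0 - θ) / (2 * Real.pi))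
  rw [← hn] at hr
  refine ⟨θ + n * (2 * Real.pi), hper θ n, ?_⟩
  have h1 : |θ + n * (2 * Real.pi) - θ0| ≤ Real.pi := by
    have e : θ + n * (2 * Real.pi) - θ0 = -(((θ0 - θ) / (2 * Real.pi) - n) * (2 * Real.pi)) := by
      field_simp
      ring
    rw [e, abs_neg, abs_mul, abs_of_pos (by positivity : 0 < 2 * Real.pi)]
    nlinarith
  rw [← hper θ n] at h
  obtain ⟨x, hx⟩ : ∃ x, x = θ + n * (2 * Real.pi) := ⟨_, rfl⟩
  rw [← hx] at h1 h ⊢
  rcases le_total θ0 x with h2 | h2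
  · rw [abs_of_nonneg (by linarith)] at h1 ⊢
    have := Pool.Agent.Y989.SD.AUP.cir_low θ0 x (x - θ0) (by linarith) le_rfl (by linarith)
    linarith
  · rw [abs_of_nonpos (by linarith)] at h1 ⊢
    have := Pool.Agent.Y989.SD.AUP.cir_low x θ0 (θ0 - x) (by linarith) le_rfl (by linarith)
    rw [norm_sub_rev] at this
    linarith

end Pool.Agent.J6H22.SL
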