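import Pool.Agent.J6H22.SL.Geo

/-!
Project SL, item DL: the geometry of the domain, the boxes and the rectangle.
-/

set_option autoImplicit false

namespace Pool.Agent.J6H22.SL

open Finset H974
open Pool.Agent.H160R2.CV Pool.Agent.H160R2.CV.Quad
open TH976 (sd sd_self sd_comm sd_tri)
open H973 (ES mem_ES BX mem_BX)
open Pool.Agent.J6H18.SL (Sq WI Sep touch sqr cen arc ad gh Dt)
open Pool.Agent.Y989.SD (TD cir near disc pos nu ip SmW m_GA m_GB)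
open Pool.Agent.Y989.SD.GD (TD_mem cir_norm cir_mem)

theorem pos_le {ε : ℝ} (hε : 0 < ε) (u v : Vtx) : ‖pos ε u - pos ε v‖ ≤ 2 * ε * sd u v := by
  have key : ∀ m n : ℤ, (m - n).natAbs ≤ sd u v → |ε * m - ε * n| ≤ ε * sd u v := by
    intro m n h
    have h1 : |((m - n : ℤ) : ℝ)| ≤ sd u v := by
      rw [← Int.cast_abs]
      have : |m - n| ≤ (sd u v : ℤ) := by
        rw [Int.abs_eq_natAbs]
        exact_mod_cast h
      exact_mod_cast this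
    rw [← mul_sub, abs_mul, abs_of_pos hε]
    push_cast at h1
    exact mul_le_mul_of_nonneg_left h1 hε.le
  refine (Complex.norm_le_abs_re_add_abs_im _).trans ?_
  simp only [Complex.sub_re, Complex.sub_im, pos]
  have h1 := key u.1 v.1 (by unfold sd; omega)
  have h2 := key u.2 v.2 (by unfold sd; omega)
  linarith

theorem pos_ge {ε : ℝ} (hε : 0 < ε) (u v : Vtx) : ε * sd u v ≤ ‖pos ε u - pos ε v‖ := by
  obtain ⟨h1, h2⟩ := Pool.Agent.Y989.SD.AUP.pos_low hε u v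
  have h3 : ((sd u v : ℕ) : ℝ) = max |(u.1 : ℝ) - v.1| |(u.2 : ℝ) - v.2| := by
    unfold sd
    rw [Nat.cast_max, Nat.cast_natAbs, Nat.cast_natAbs]
    push_cast
    rfl
  rw [h3, mul_max_of_nonneg _ _ hε.le]
  exact max_le h1 h2

theorem le_cir {w : ℂ} (θ : ℝ) : 1 - ‖w‖ ≤ ‖w - cir θ‖ := by
  have := norm_sub_norm_le (cir θ) w
  rw [cir_norm, norm_sub_rev] at this
  exact this

/-- the boxes around `z` are inside -/
theorem zbox {f : ℂ → ℂ} {l ε : ℝ} (hε : 0 < ε)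
    (hl : ∀ z ∈ disc, ∀ w ∈ disc, l * ‖z - w‖ ≤ ‖f z - f w‖) (hl0 : 0 < l)
    (hK : IsCompact (f '' disc)) (hint : ∀ w, ‖w‖ < 1 → f w ∈ interior (f '' disc)) {w : ℂ}
    {z : Vtx} (hw : w ∈ disc) (hz : f w = cen ε z) (v : Vtx)
    (h : ε * (2 * sd v z + 1) < l * (1 - ‖w‖)) : v ∈ TD f ε := by
  rw [TD_mem hK hε]
  by_contra hv
  obtain ⟨θ, hθ⟩ := Pool.Agent.Y989.SD.GD.seg hK hint (Set.mem_image_of_mem f hw) hv
  have h1 := hl w hw (cir θ) (cir_mem θ)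
  have h2 : 1 - ‖w‖ ≤ ‖w - cir θ‖ := le_cir θ
  have h3 : ‖pos ε v - f w‖ ≤ ε * (2 * sd v z + 1) := by
    rw [hz]
    have e1 : pos ε v - cen ε z = (pos ε v - pos ε z) + (pos ε z - cen ε z) := by ring
    rw [e1]
    refine (norm_add_le _ _).trans ?_
    have k1 := pos_le hε v z
    have k2 := cen_near hε z
    linarith
  have h4 := mul_le_mul_of_nonneg_left h2 hl0.le
  linarith

/-- the vertices next to the boundary are far from `z` -/
theorem nearz {f : ℂ → ℂ} {l ε θ1 θ2 : ℝ} (hε : 0 < ε)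
    (hl : ∀ z ∈ disc, ∀ w ∈ disc, l * ‖z - w‖ ≤ ‖f z - f w‖) (hl0 : 0 < l) {w : ℂ}
    {z : Vtx} (hw : w ∈ disc) (hz : f w = cen ε z) {u : Vtx} (hu : u ∈ near f ε θ1 θ2) :
    l * (1 - ‖w‖) ≤ ε * (2 * sd u z + 3) := by
  obtain ⟨-, θ, -, -, hθ⟩ := hu
  have h1 := hl w hw (cir θ) (cir_mem θ)
  have h2 : 1 - ‖w‖ ≤ ‖w - cir θ‖ := le_cir θ
  have h4 := mul_le_mul_of_nonneg_left h2 hl0.le
  have h3 : ‖f w - f (cir θ)‖ ≤ ε * (2 * sd u z + 3) := by
    rw [hz]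
    have e1 : cen ε z - f (cir θ) = -(pos ε z - cen ε z) + -(pos ε u - pos ε z) +
      (pos ε u - f (cir θ)) := by ring
    rw [e1]
    refine (norm_add₃_le).trans ?_
    rw [norm_neg, norm_neg]
    have k1 := pos_le hε u z
    have k2 := cen_near hε z
    linarith
  linarith

theorem cir_cont : Continuous cir := by
  unfold cir
  fun_prop

/-- the middle of the boundary arc -/
theorem mid {w : ℂ} (hw : ‖w‖ < 1) {a b : ℝ} (hab : a < b) : ∃ θ0 l0 : ℝ, 0 < l0 ∧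
    a ≤ θ0 - l0 ∧ θ0 + l0 ≤ b ∧ l0 ≤ ad w a b / 4 ∧ (l0 = ad w a b / 4 ∨ l0 = (b - a) / 2) ∧
    ad w a b ≤ ‖cir θ0 - w‖ ∧ ‖cir θ0 - w‖ ≤ 5 / 4 * ad w a b ∧ 1 - ‖w‖ ≤ ad w a b ∧
    ad w a b ≤ 2 := by
  have hcomp : IsCompact (arc a b) := isCompact_Icc.image cir_cont
  have hne : (arc a b).Nonempty := ⟨cir a, a, ⟨le_rfl, hab.le⟩, rfl⟩
  obtain ⟨p, ⟨t, ⟨ht1, ht2⟩, rfl⟩, hp⟩ := hcomp.exists_infDist_eq_dist hne w
  have hd : ad w a b = ‖w - cir t‖ := by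
    unfold ad
    rw [hp, dist_eq_norm]
  have hlow : ∀ x, a ≤ x → x ≤ b → ad w a b ≤ ‖w - cir x‖ := by
    intro x h1 h2
    unfold ad
    rw [← dist_eq_norm]
    exact Metric.infDist_le_dist_of_mem ⟨x, ⟨h1, h2⟩, rfl⟩
  have hδ : 1 - ‖w‖ ≤ ad w a b := by rw [hd]; exact le_cir t
  have hd2 : ad w a b ≤ 2 := by
    rw [hd]
    refine (norm_sub_le _ _).trans ?_
    rw [cir_norm]
    linarith
  obtain ⟨D, hD⟩ : ∃ D, D = ad w a b := ⟨_, rfl⟩
  rw [← hD] at hd hlow hδ hd2 ⊢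
  have hD0 : 0 < D := by linarith
  obtain ⟨l0, hl0⟩ : ∃ l0, l0 = min (D / 4) ((b - a) / 2) := ⟨_, rfl⟩
  have h1 : l0 ≤ D / 4 := by rw [hl0]; exact min_le_left _ _
  have h2 : l0 ≤ (b - a) / 2 := by rw [hl0]; exact min_le_right _ _
  have h3 : 0 < l0 := by rw [hl0]; exact lt_min (by linarith) (by linarith)
  have h4 : l0 = D / 4 ∨ l0 = (b - a) / 2 := by rw [hl0]; exact min_choice _ _
  obtain ⟨θ0, hθ0⟩ : ∃ θ0, θ0 = max (a + l0) (min t (b - l0)) := ⟨_, rfl⟩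
  have h5 : a + l0 ≤ θ0 := by rw [hθ0]; exact le_max_left _ _
  have h6 : θ0 ≤ b - l0 := by rw [hθ0]; exact max_le (by linarith) (min_le_right _ _)
  have h7 : |θ0 - t| ≤ l0 := by
    rw [abs_le, hθ0]
    constructor
    · rcases le_total t (b - l0) with h | h
      · rw [min_eq_left h]
        have := le_max_right (a + l0) t
        linarith
      · rw [min_eq_right h]
        have := le_max_right (a + l0) (b - l0)
        linarith
    · have : max (a + l0) (min t (b - l0)) ≤ t + l0 :=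
        max_le (by linarith) ((min_le_left _ _).trans (by linarith))
      linarith
  have h8 : ‖cir θ0 - cir t‖ ≤ l0 := (Pool.Agent.Y989.SD.CHN.cir_sub θ0 t).trans h7
  refine ⟨θ0, l0, h3, by linarith, by linarith, h1, h4, ?_, ?_, hδ, hd2⟩
  · rw [norm_sub_rev]
    exact hlow θ0 (by linarith) (by linarith)
  · have e1 : cir θ0 - w = (cir θ0 - cir t) + -(w - cir t) := by ring
    rw [e1]
    refine (norm_add_le _ _).trans ?_
    rw [norm_neg, ← hd]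
    linarith

theorem rct {T : Finset Vtx} {P Q : Vtx} {r : ℕ} (hr : 1 ≤ r) (hQ : ∀ v, sd v Q ≤ r → v ∉ Sq T)
    (h : (P.1 = Q.1 ∧ ((1 ≤ P.2 - Q.2 ∧ P.2 - Q.2 ≤ 152 * r) ∨
        (1 ≤ Q.2 - P.2 ∧ Q.2 - P.2 ≤ 152 * r))) ∨
      (P.2 = Q.2 ∧ ((1 ≤ P.1 - Q.1 ∧ P.1 - Q.1 ≤ 152 * r) ∨
        (1 ≤ Q.1 - P.1 ∧ Q.1 - P.1 ≤ 152 * r)))) :
    ∃ a b c d : ℤ, Rct T P r a b c d ∧ ∀ y, inR a b c d y →
      ((min P.1 Q.1 - r ≤ y.1 ∧ y.1 ≤ max P.1 Q.1 + r) ∧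
        (min P.2 Q.2 - r ≤ y.2 ∧ y.2 ≤ max P.2 Q.2 + r)) := by
  obtain ⟨p1, p2⟩ := P
  obtain ⟨q1, q2⟩ := Q
  simp only at h ⊢
  rcases h with ⟨rfl, ⟨h1, h2⟩ | ⟨h1, h2⟩⟩ | ⟨rfl, ⟨h1, h2⟩ | ⟨h1, h2⟩⟩
  · refine ⟨p1 - r, p1 + r, q2, p2, ⟨r, by omega, Or.inl ⟨⟨by omega, by omega, by omega⟩,
      Or.inr fun x hx1 hx2 => ⟨by unfold sd; simp only; omega, hQ _ ?_⟩⟩⟩, ?_⟩
    · unfold sd; simp only; omega
    · intro y hy
      unfold inR at hy
      omega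
  · refine ⟨p1 - r, p1 + r, p2, q2, ⟨r, by omega, Or.inl ⟨⟨by omega, by omega, by omega⟩,
      Or.inl fun x hx1 hx2 => ⟨by unfold sd; simp only; omega, hQ _ ?_⟩⟩⟩, ?_⟩
    · unfold sd; simp only; omega
    · intro y hy
      unfold inR at hy
      omega
  · refine ⟨q1, p1, p2 - r, p2 + r, ⟨r, by omega, Or.inr ⟨⟨by omega, by omega, by omega⟩,
      Or.inr fun x hx1 hx2 => ⟨by unfold sd; simp only; omega, hQ _ ?_⟩⟩⟩, ?_⟩
    · unfold sd; simp only; omega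
    · intro y hy
      unfold inR at hy
      omega
  · refine ⟨p1, q1, p2 - r, p2 + r, ⟨r, by omega, Or.inr ⟨⟨by omega, by omega, by omega⟩,
      Or.inl fun x hx1 hx2 => ⟨by unfold sd; simp only; omega, hQ _ ?_⟩⟩⟩, ?_⟩
    · unfold sd; simp only; omega
    · intro y hy
      unfold inR at hy
      omega

theorem fdiff {ε h : ℝ} (x : ℝ) {r : ℕ} (hε : 0 < ε) (hN : 1000 * ε ≤ h)
    (hr : h ≤ 60 * (ε * (r + 1))) : 1 ≤ ⌊(x + h) / ε⌋ - ⌊(x - h) / ε⌋ ∧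
      ⌊(x + h) / ε⌋ - ⌊(x - h) / ε⌋ ≤ 152 * (r : ℤ) := by
  have h1 := Int.floor_le ((x + h) / ε)
  have h2 := Int.lt_floor_add_one ((x + h) / ε)
  have h3 := Int.floor_le ((x - h) / ε)
  have h4 := Int.lt_floor_add_one ((x - h) / ε)
  obtain ⟨p, hp⟩ : ∃ p : ℤ, p = ⌊(x + h) / ε⌋ := ⟨_, rfl⟩
  obtain ⟨q, hq⟩ : ∃ q : ℤ, q = ⌊(x - h) / ε⌋ := ⟨_, rfl⟩
  rw [← hp] at h1 h2 ⊢
  rw [← hq] at h3 h4 ⊢
  rw [add_div] at h1 h2
  rw [sub_div] at h3 h4
  have h5 : 1000 ≤ h / ε := by rw [le_div_iff₀ hε]; exact hN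
  have h6 : h / ε ≤ 60 * (r + 1) := by rw [div_le_iff₀ hε]; linarith
  constructor
  · have : (1 : ℝ) ≤ (p : ℝ) - q := by linarith
    exact_mod_cast this
  · have : (p : ℝ) - q ≤ 152 * r := by linarith
    exact_mod_cast this

theorem bx {ε x t : ℝ} (hε : 0 < ε) {m p q : ℤ} {r : ℕ} (hp : p = ⌊(x + t) / ε⌋)
    (hq : q = ⌊(x - t) / ε⌋) (h : min p q - r ≤ m ∧ m ≤ max p q + r) :
    |ε * m - x| ≤ |t| + ε * (r + 1) := by
  obtain ⟨h1, h2⟩ := h
  have a1 := Int.floor_le ((x + t) / ε)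
  have a2 := Int.lt_floor_add_one ((x + t) / ε)
  have a3 := Int.floor_le ((x - t) / ε)
  have a4 := Int.lt_floor_add_one ((x - t) / ε)
  rw [← hp] at a1 a2
  rw [← hq] at a3 a4
  have t1 := le_abs_self t
  have t2 := neg_abs_le t
  have b1 : (m : ℝ) ≤ (x + |t|) / ε + r := by
    have h3 : (m : ℝ) ≤ max (p : ℝ) q + r := by exact_mod_cast h2
    have c1 : (x + t) / ε ≤ (x + |t|) / ε := div_le_div_of_nonneg_right (by linarith) hε.le
    have c2 : (x - t) / ε ≤ (x + |t|) / ε := div_le_div_of_nonneg_right (by linarith) hε.le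
    have c3 : max (p : ℝ) q ≤ (x + |t|) / ε := max_le (by linarith) (by linarith)
    linarith
  have b2 : (x - |t|) / ε - 1 - r ≤ m := by
    have h3 : min (p : ℝ) q - r ≤ (m : ℝ) := by exact_mod_cast h1
    have c1 : (x - |t|) / ε ≤ (x + t) / ε := div_le_div_of_nonneg_right (by linarith) hε.le
    have c2 : (x - |t|) / ε ≤ (x - t) / ε := div_le_div_of_nonneg_right (by linarith) hε.le
    have c3 : (x - |t|) / ε - 1 ≤ min (p : ℝ) q := le_min (by linarith) (by linarith)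
    linarith
  have e1 : ε * ((x + |t|) / ε) = x + |t| := by field_simp
  have e2 : ε * ((x - |t|) / ε) = x - |t| := by field_simp
  have d1 := mul_le_mul_of_nonneg_left b1 hε.le
  have d2 := mul_le_mul_of_nonneg_left b2 hε.le
  rw [mul_add, e1] at d1
  rw [mul_sub, mul_sub, e2, mul_one] at d2
  rw [abs_le]
  constructor
  · linarith
  · linarith

/-- the boxes and the rectangle near the boundary -/
theorem bgeo {f : ℂ → ℂ} (hK : IsCompact (f '' disc)) {ε h : ℝ} (hε : 0 < ε) {w0 : ℂ} {e : Vtx}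
    (he : Dir e) (hN : 1000 * ε ≤ h)
    (hcone : ∀ ξ : ℂ, ‖ξ‖ ≤ h / 8 →
      f w0 + (h * cx e + ξ) ∈ f '' disc ∧ f w0 + (-(h * cx e) + ξ) ∉ f '' disc) :
    ∃ (P : Vtx) (r : ℕ) (a b c d : ℤ), 1 ≤ r ∧ 60 * (ε * r) ≤ h ∧ h ≤ 120 * (ε * r) ∧
      ‖pos ε P - f w0‖ ≤ 5 / 4 * h ∧ (∀ v, sd v P ≤ 3 * r + 1 → v ∈ Sq (TD f ε)) ∧
      Rct (TD f ε) P r a b c d ∧ ∀ y, inR a b c d y → ‖pos ε y - f w0‖ ≤ 5 / 4 * h := by
  have hh : 0 < h := by linarith
  obtain ⟨r, hr⟩ : ∃ r, r = ⌊h / ε / 60⌋₊ := ⟨_, rfl⟩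
  have hNe : 1000 ≤ h / ε := by rw [le_div_iff₀ hε]; exact hN
  have hr1 : (r : ℝ) ≤ h / ε / 60 := by rw [hr]; exact Nat.floor_le (by positivity)
  have hr2 : h / ε / 60 < r + 1 := by rw [hr]; exact Nat.lt_floor_add_one _
  have hr3 : 1 ≤ r := by
    rw [hr]
    refine Nat.le_floor ?_
    push_cast
    linarith
  have hr3' : (1 : ℝ) ≤ r := by exact_mod_cast hr3
  have e0 : ε * (h / ε / 60) = h / 60 := by field_simp
  have k1 : 60 * (ε * r) ≤ h := by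
    have := mul_le_mul_of_nonneg_left hr1 hε.le
    rw [e0] at this
    linarith
  have k2 : h ≤ 60 * (ε * (r + 1)) := by
    have := mul_le_mul_of_nonneg_left hr2.le hε.le
    rw [e0] at this
    linarith
  have k3 : h ≤ 120 * (ε * r) := by
    have := mul_le_mul_of_nonneg_left hr3' hε.le
    linarith
  obtain ⟨P, hP⟩ : ∃ P, P = fl ε (f w0 + h * cx e) := ⟨_, rfl⟩
  obtain ⟨Q, hQ⟩ : ∃ Q, Q = fl ε (f w0 + -(h * cx e)) := ⟨_, rfl⟩
  have hP1 : P.1 = ⌊((f w0).re + h * e.1) / ε⌋ := by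
    rw [hP]; unfold fl cx
    simp only [Complex.add_re, Complex.mul_re, Complex.ofReal_re, Complex.ofReal_im, zero_mul,
      sub_zero]
  have hP2 : P.2 = ⌊((f w0).im + h * e.2) / ε⌋ := by
    rw [hP]; unfold fl cx
    simp only [Complex.add_im, Complex.mul_im, Complex.ofReal_re, Complex.ofReal_im, zero_mul,
      add_zero]
  have hQ1 : Q.1 = ⌊((f w0).re - h * e.1) / ε⌋ := by
    rw [hQ]; unfold fl cx
    simp only [Complex.add_re, Complex.neg_re, Complex.mul_re, Complex.ofReal_re,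
      Complex.ofReal_im, zero_mul, sub_zero]
    rw [← sub_eq_add_neg]
  have hQ2 : Q.2 = ⌊((f w0).im - h * e.2) / ε⌋ := by
    rw [hQ]; unfold fl cx
    simp only [Complex.add_im, Complex.neg_im, Complex.mul_im, Complex.ofReal_re,
      Complex.ofReal_im, zero_mul, add_zero]
    rw [← sub_eq_add_neg]
  have hPin : ∀ v, sd v P ≤ 3 * r + 2 → v ∈ TD f ε := by
    intro v hv
    rw [hP] at hv
    have h1 := fl_near hε _ v hv
    have h2 : ‖pos ε v - (f w0 + h * cx e)‖ ≤ h / 8 := by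
      refine h1.trans ?_
      push_cast
      have e1 : 2 * ε * (3 * (r : ℝ) + 2 + 1) = 6 * (ε * r) + 6 * ε := by ring
      rw [e1]
      linarith
    have h3 := (hcone _ h2).1
    rw [TD_mem hK hε]
    have e2 : f w0 + (h * cx e + (pos ε v - (f w0 + h * cx e))) = pos ε v := by ring
    rwa [e2] at h3
  have hQout : ∀ v, sd v Q ≤ r → v ∉ Sq (TD f ε) := by
    intro v hv hvS
    rw [hQ] at hv
    have h1 := fl_near hε _ v hv
    have h2 : ‖pos ε v - (f w0 + -(h * cx e))‖ ≤ h / 8 := by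
      refine h1.trans ?_
      have e1 : 2 * ε * ((r : ℝ) + 1) = 2 * (ε * r) + 2 * ε := by ring
      rw [e1]
      linarith
    have h3 := (hcone _ h2).2
    have h4 := (mem_Sq.mp hvS).1
    rw [TD_mem hK hε] at h4
    have e2 : f w0 + (-(h * cx e) + (pos ε v - (f w0 + -(h * cx e)))) = pos ε v := by ring
    rw [e2] at h3
    exact h3 h4
  have hb : ∀ y : Vtx, ((min P.1 Q.1 - r ≤ y.1 ∧ y.1 ≤ max P.1 Q.1 + r) ∧
        (min P.2 Q.2 - r ≤ y.2 ∧ y.2 ≤ max P.2 Q.2 + r)) → ‖pos ε y - f w0‖ ≤ 5 / 4 * h := by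
    intro y hy
    have h1 := bx hε hP1 hQ1 hy.1
    have h2 := bx hε hP2 hQ2 hy.2
    have h3 : |h * (e.1 : ℝ)| + |h * (e.2 : ℝ)| ≤ h := by
      rcases he with rfl | rfl | rfl | rfl <;> simp [abs_of_pos hh]
    refine (Complex.norm_le_abs_re_add_abs_im _).trans ?_
    simp only [Complex.sub_re, Complex.sub_im, pos]
    have e1 : ε * ((r : ℝ) + 1) = ε * r + ε := by ring
    rw [e1] at h1 h2
    linarith
  have hc : (P.1 = Q.1 ∧ ((1 ≤ P.2 - Q.2 ∧ P.2 - Q.2 ≤ 152 * r) ∨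
        (1 ≤ Q.2 - P.2 ∧ Q.2 - P.2 ≤ 152 * r))) ∨
      (P.2 = Q.2 ∧ ((1 ≤ P.1 - Q.1 ∧ P.1 - Q.1 ≤ 152 * r) ∨
        (1 ≤ Q.1 - P.1 ∧ Q.1 - P.1 ≤ 152 * r))) := by
    have f1 := fdiff (f w0).re hε hN k2
    have f2 := fdiff (f w0).im hε hN k2
    rcases he with rfl | rfl | rfl | rfl
    · left
      simp only [Int.cast_zero, Int.cast_one, mul_zero, mul_one, add_zero, sub_zero] at hP1 hP2 hQ1 hQ2
      refine ⟨hP1.trans hQ1.symm, Or.inl ?_⟩
      rw [hP2, hQ2]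
      exact f2
    · right
      simp only [Int.cast_zero, Int.cast_one, mul_zero, mul_one, add_zero, sub_zero] at hP1 hP2 hQ1 hQ2
      refine ⟨hP2.trans hQ2.symm, Or.inl ?_⟩
      rw [hP1, hQ1]
      exact f1
    · left
      simp only [Int.cast_zero, Int.cast_neg, Int.cast_one, mul_zero, mul_neg, mul_one, add_zero,
        sub_zero, sub_neg_eq_add, ← sub_eq_add_neg] at hP1 hP2 hQ1 hQ2
      refine ⟨hP1.trans hQ1.symm, Or.inr ?_⟩
      rw [hP2, hQ2]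
      exact f2
    · right
      simp only [Int.cast_zero, Int.cast_neg, Int.cast_one, mul_zero, mul_neg, mul_one, add_zero,
        sub_zero, sub_neg_eq_add, ← sub_eq_add_neg] at hP1 hP2 hQ1 hQ2
      refine ⟨hP2.trans hQ2.symm, Or.inr ?_⟩
      rw [hP1, hQ1]
      exact f1
  obtain ⟨a, b, c, d, hR, hloc⟩ := rct hr3 hQout hc
  refine ⟨P, r, a, b, c, d, hr3, k1, k3, hb P ?_, ?_, hR, fun y hy => hb y (hloc y hy)⟩
  · omega
  · intro v hv
    rw [Sq_iff]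
    intro v' hv'
    apply hPin
    unfold cor at hv'
    unfold sd at hv ⊢
    omega

theorem frac {a b A B C : ℝ} (ha : 0 < a) (hb : 0 < b) (hA : 0 < A) (hB : 0 < B) (hC : 1 ≤ C)
    (h : a * B ≤ C * (A * b)) : a / (a + b) ≤ C * (A / (A + B)) := by
  rw [← mul_div_assoc, div_le_div_iff₀ (by positivity) (by positivity)]
  have : a * A ≤ C * (a * A) := le_mul_of_one_le_left (by positivity) hC
  nlinarith

end Pool.Agent.J6H22.SL
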