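import Pool.Agent.J6H22.SL.Topo

/-!
Project SL, item DL: the probability of the closed dual clusters.
-/

set_option autoImplicit false

namespace Pool.Agent.J6H22.SL

open Finset H974
open Pool.Agent.H160R2.CV Pool.Agent.H160R2.CV.Quad
open TH976 (sd sd_self sd_comm sd_tri fkg incr_and pr_TB pr_LR)
open H973 (ES mem_ES EV BX mem_BX dlt dlt_pos dlt_le Pr_restrict)
open Pool.Agent.J6H18.GD (CG CG.mono CG_incr pr_CG Jn Jn.mono Jn_incr Bl BL BL_incr pr_BLin Lq)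
open Pool.Agent.J6H18.SL (Sq WI Sep touch)
open Pool.Agent.Y989.SD (TD cir near hf)

theorem okh : Ok (hf : Edg → ℝ) := fun _ => ⟨by norm_num, by norm_num⟩

/-- the law of the closed dual edges -/
theorem law (S : Finset Edg) (E : Finset Edg → Prop) :
    Pr hf S (fun F => E (dmp (S \ F))) = Pr hf (dmp S) E := by
  have h1 := pr_dmp (1 / 2) S E
  have h2 := Pr_compl (fun _ : Edg => (1 / 2 : ℝ)) S (fun F => E (dmp F))
  have h3 : (fun _ : Edg => (1 : ℝ) - 1 / 2) = fun _ => 1 / 2 := by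
    funext _
    norm_num
  rw [h3] at h2
  exact h2.symm.trans h1.symm

theorem E4.mono {T : Finset Vtx} {P : Vtx} {r : ℕ} {a b c d : ℤ} {F G : Finset Edg} (h : F ⊆ G)
    (hF : E4 T P r a b c d F) : E4 T P r a b c d G := by
  obtain ⟨u, v, h1, h2, h3⟩ := hF
  refine ⟨u, v, h1, h2, h3.mono (Set.inter_subset_inter_left _ ?_)⟩
  exact_mod_cast Finset.union_subset_union h subset_rfl

/-- the crossing of a rectangle next to the boundary -/
theorem pr_E4 {T : Finset Vtx} {P : Vtx} {r : ℕ} {a b c d : ℤ} {A : Finset Edg → Prop}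
    (hA : ∀ G, A G → ∃ u v : Vtx, sd u P ≤ r ∧ v ∉ Sq T ∧ Reach (↑G ∩ ↑(RE a b c d)) u v) :
    Pr hf (RE a b c d ∪ dmp (ES T)) A ≤ Pr hf (dmp (ES T)) (E4 T P r a b c d) := by
  have h1 : Pr hf (RE a b c d ∪ dmp (ES T)) (fun G => E4 T P r a b c d (G ∩ dmp (ES T))) =
      Pr hf (dmp (ES T)) (E4 T P r a b c d) := Pr_restrict Finset.subset_union_right _
  rw [← h1]
  refine Pr_mono okh fun G hG hAG => ?_
  obtain ⟨u, v, k1, k2, k3⟩ := hA G hAG
  refine ⟨u, v, k1, k2, k3.mono (Set.inter_subset_inter_left _ ?_)⟩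
  intro e he
  rw [Finset.mem_coe] at he ⊢
  rw [Finset.mem_union, Finset.mem_inter, Finset.mem_sdiff]
  have := hG he
  rw [Finset.mem_union] at this
  by_cases h : e ∈ dmp (ES T)
  · exact Or.inl ⟨he, h⟩
  · rcases this with h' | h'
    · exact Or.inr ⟨h', h⟩
    · exact absurd h' h

/-- the position of the rectangle: one of its short sides is next to `P`, the other one is
outside -/
def Rct (T : Finset Vtx) (P : Vtx) (r : ℕ) (a b c d : ℤ) : Prop :=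
  ∃ m : ℤ, 0 < m ∧
  (((0 < d - c ∧ d - c ≤ 152 * m ∧ 2 * m ≤ b - a) ∧
    ((∀ x, a ≤ x → x ≤ b → sd (x, c) P ≤ r ∧ (x, d) ∉ Sq T) ∨
      ∀ x, a ≤ x → x ≤ b → sd (x, d) P ≤ r ∧ (x, c) ∉ Sq T)) ∨
  ((0 < b - a ∧ b - a ≤ 152 * m ∧ 2 * m ≤ d - c) ∧
    ((∀ y, c ≤ y → y ≤ d → sd (a, y) P ≤ r ∧ (b, y) ∉ Sq T) ∨
      ∀ y, c ≤ y → y ≤ d → sd (b, y) P ≤ r ∧ (a, y) ∉ Sq T)))

theorem pr_Rct {T : Finset Vtx} {P : Vtx} {r : ℕ} {a b c d : ℤ} (h : Rct T P r a b c d) :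
    dlt ≤ Pr hf (dmp (ES T)) (E4 T P r a b c d) := by
  obtain ⟨m, hm, h | h⟩ := h
  · obtain ⟨⟨h1, h2, h3⟩, h4⟩ := h
    refine (pr_TB (S := RE a b c d ∪ dmp (ES T)) Finset.subset_union_left hm h1 h2 h3).trans
      (pr_E4 ?_)
    rintro G ⟨x, x', hx, hx', hr⟩
    have hr' := hr.mono (Set.inter_subset_inter_right (↑G : Set Edg)
      (by exact_mod_cast TBE_subset_RE : (↑(TBE a b c d) : Set Edg) ⊆ ↑(RE a b c d)))
    rcases h4 with h4 | h4
    · exact ⟨(x, c), (x', d), (h4 x hx.1 hx.2).1, (h4 x' hx'.1 hx'.2).2, hr'⟩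
    · exact ⟨(x', d), (x, c), (h4 x' hx'.1 hx'.2).1, (h4 x hx.1 hx.2).2, hr'.symm⟩
  · obtain ⟨⟨h1, h2, h3⟩, h4⟩ := h
    refine (pr_LR (S := RE a b c d ∪ dmp (ES T)) Finset.subset_union_left hm h1 h2 h3).trans
      (pr_E4 ?_)
    rintro G ⟨x, x', hx, hx', hr⟩
    have hr' := hr.mono (Set.inter_subset_inter_right (↑G : Set Edg)
      (by exact_mod_cast LRE_subset_RE : (↑(LRE a b c d) : Set Edg) ⊆ ↑(RE a b c d)))
    rcases h4 with h4 | h4
    · exact ⟨(a, x), (b, x'), (h4 x hx.1 hx.2).1, (h4 x' hx'.1 hx'.2).2, hr'⟩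
    · exact ⟨(b, x'), (a, x), (h4 x' hx'.1 hx'.2).1, (h4 x hx.1 hx.2).2, hr'.symm⟩

/-- The probabilistic part of the lower bound. -/
theorem prob_lower {f : ℂ → ℂ} {ε θ1 θ2 : ℝ} {P z : Vtx}
    {r s : ℕ} (hr : 1 ≤ r) (hs : 1 ≤ s) (hP : ∀ v, sd v P ≤ 3 * r + 1 → v ∈ Sq (TD f ε))
    (hz : ∀ v, sd v z ≤ 3 * s + 1 → v ∈ Sq (TD f ε)) (hD : 3 * r + 3 * s ≤ sd P z)
    (hI : ∀ u ∈ near f ε θ1 θ2, 3 * s + 2 ≤ sd u z) {a b c d : ℤ}
    (ht : ∀ y, inR a b c d y → y ∉ Sq (TD f ε) → (∃ v, cor y v ∧ v ∈ TD f ε) →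
      y ∈ touch f ε θ2 (θ1 + 2 * Real.pi)) (hR : Rct (TD f ε) P r a b c d) {α : ℝ}
    (hα : 0 ≤ α) (hJ : α ≤ Pr hf (ES (Sq (TD f ε))) (Jn (BX P r) (BX z s))) :
    α * dlt ^ 4 * dlt ^ 4 * dlt ≤ Pr hf (ES (TD f ε)) (fun F => ¬ Sep f ε θ1 θ2 z F) := by
  obtain ⟨T, hT⟩ : ∃ T, T = TD f ε := ⟨_, rfl⟩
  have hd0 := dlt_pos
  have hsub : ES (Sq T) ⊆ dmp (ES T) := ES_Sq_sub T
  obtain ⟨U, hU⟩ : ∃ U, U = dmp (ES T) := ⟨_, rfl⟩
  have k1 : α ≤ Pr hf U (fun G => Jn (BX P r) (BX z s) (G ∩ ES (Sq T))) := by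
    rw [Pr_restrict (by rw [hU]; exact hsub)]
    rw [hT]
    exact hJ
  have k2 : dlt ^ 4 ≤ Pr hf U (fun G => CG (z.1 - 3 * s) (z.2 - 3 * s) z s (G ∩ ES (Sq T))) := by
    rw [Pr_restrict (by rw [hU]; exact hsub)]
    refine pr_CG hs ?_ ?_
    · intro v hv
      constructor
      · intro _
        unfold sd at hv
        omega
      · intro _
        rw [hT]
        exact hz v (by omega)
    · rw [hT]
      exact hz z (by rw [sd_self]; omega)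
  have k3 : dlt ^ 4 ≤ Pr hf U (fun G => BL (Sq T) P r (3 * r) (G ∩ ES (Sq T))) := by
    rw [Pr_restrict (by rw [hU]; exact hsub)]
    exact pr_BLin hr fun v hv => by rw [hT]; exact hP v (by omega)
  have k4 : dlt ≤ Pr hf U (E4 T P r a b c d) := by
    rw [hU]
    rw [← hT] at hR
    exact pr_Rct hR
  have hincr : ∀ {A : Finset Edg → Prop}, (∀ F G : Finset Edg, F ⊆ G → A F → A G) →
      IncrE U (fun G => A (G ∩ ES (Sq T))) := by
    intro A hA F G h _ h'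
    exact hA _ _ (Finset.inter_subset_inter_right h) h'
  have i1 : IncrE U (fun G => Jn (BX P r) (BX z s) (G ∩ ES (Sq T))) :=
    hincr fun F G h h' => h'.mono h
  have i2 : IncrE U (fun G => CG (z.1 - 3 * s) (z.2 - 3 * s) z s (G ∩ ES (Sq T))) :=
    hincr fun F G h h' => h'.mono h
  have i3 : IncrE U (fun G => BL (Sq T) P r (3 * r) (G ∩ ES (Sq T))) :=
    hincr fun F G h h' => BL_incr G (Sq T) P r (3 * r) F G h subset_rfl h'
  have i4 : IncrE U (E4 T P r a b c d) := fun F G h _ h' => h'.mono h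
  have f1 := fkg i1 i2 (by positivity) k1 k2
  have f2 := fkg (incr_and i1 i2) i3 (by positivity) f1 k3
  have f3 := fkg (incr_and (incr_and i1 i2) i3) i4 hd0.le f2 k4
  refine f3.trans ?_
  rw [hU]
  have hlaw := law (ES T) (fun G => ((Jn (BX P r) (BX z s) (G ∩ ES (Sq T)) ∧
    CG (z.1 - 3 * s) (z.2 - 3 * s) z s (G ∩ ES (Sq T))) ∧ BL (Sq T) P r (3 * r) (G ∩ ES (Sq T))) ∧
    E4 T P r a b c d G)
  refine (le_of_eq hlaw.symm).trans ?_
  rw [hT]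
  refine Pr_mono okh fun F hF h => ?_
  obtain ⟨⟨⟨h1, h2⟩, h3⟩, h4⟩ := h
  exact not_sep hF hr hs hP hz hD hI ht h1 h2 h3 h4

/-- boxes are connected -/
theorem Ct_BX (P : Vtx) (r : ℕ) : Pool.Agent.J6H18.GD.Ct (BX P r) := by
  have key : ∀ v ∈ BX P r, Reach (EV fun y => y ∈ BX P r) P v := by
    intro v hv
    have h1 : sd P v ≤ r := by
      rw [mem_BX] at hv
      unfold sd
      omega
    refine (Pool.Agent.J6H18.GD.reach_ball P v r h1).mono ?_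
    rintro e ⟨h2, h3⟩
    refine ⟨?_, ?_⟩
    · simp only at h2 ⊢
      rw [mem_BX]
      unfold sd at h2
      omega
    · simp only at h3 ⊢
      rw [mem_BX]
      unfold sd at h3
      omega
  intro u hu v hv
  exact (key u hu).symm.trans (key v hv)

theorem Rd_BX (P : Vtx) {r : ℕ} (hr : 1 ≤ r) : Pool.Agent.J6H18.GD.Rd (BX P r) P r := by
  refine ⟨?_, hr, ?_, Or.inr ⟨(P.1 + r, P.2), ?_, ?_⟩⟩
  · rw [mem_BX]; omega
  · intro u hu
    rw [mem_BX] at hu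
    unfold sd
    omega
  · rw [mem_BX]; simp only; omega
  · unfold sd; simp only; omega

end Pool.Agent.J6H22.SL
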