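import Pool.Agent.J6H18.SL.Stm
import Pool.Agent.J6H72.LP.Hub
import Pool.Agent.J6H18.GD.Ring

/-!
Project SL, item DL: deterministic part. Closed dual clusters join the face `z` to the boundary arc.
-/

set_option autoImplicit false

namespace Pool.Agent.J6H22.SL

open Finset H974
open Pool.Agent.H160R2.CV Pool.Agent.H160R2.CV.Quad
open TH976 (sd sd_self sd_comm sd_tri)
open H973 (ES mem_ES EV BX mem_BX)
open Pool.Agent.J6H18.GD (CG Jn Bl BL)
open Pool.Agent.J6H18.SL (Sq WI Sep touch)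
open Pool.Agent.Y989.SD (TD cir near)
open Pool.Agent.J6H72.LP (Wt Wt_sub Wt_mono Wt_hub Wt_tgt Wt_path first_leave block_h block_v)

/-- a circuit around `c` -/
theorem hub4 {c : Vtx} {R : ℕ} (hR : 1 ≤ R) {F : Finset Edg}
    (h : CG (c.1 - 3 * R) (c.2 - 3 * R) c R F) :
    ∃ z0 : Vtx, (∀ u v : Vtx, sd u c ≤ R → 3 * R ≤ sd v c → Reach (↑F) u v → Reach (↑F) u z0) ∧
      ∀ g : Vtx, 3 * R < sd g c → ¬ DReach (Wt (↑F) z0)ᶜ c g := by
  obtain ⟨⟨hr0, ht0⟩, hl0, hb0⟩ := h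
  have hl1 := hl0 le_rfl
  have hb1 := hb0 le_rfl
  obtain ⟨c1, c2⟩ := c
  simp only [max_self] at hr0 ht0 hl1 hb1
  obtain ⟨xr, xr', hxr, hxr', hr⟩ := hr0
  obtain ⟨yt, yt', hyt, hyt', ht⟩ := ht0
  obtain ⟨xl, xl', hxl, hxl', hl⟩ := hl1
  obtain ⟨yb, yb', hyb, hyb', hb⟩ := hb1
  have hR' : (1 : ℤ) ≤ R := by exact_mod_cast hR
  have hr' := hr.mono (Set.inter_subset_inter_right (↑F : Set Edg)
    (by exact_mod_cast TBE_subset_RE :
      (↑(TBE (c1 + R) (c1 + 3 * R) (c2 - 3 * R) (c2 + 3 * R)) : Set Edg) ⊆ _))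
  have hl' := hl.mono (Set.inter_subset_inter_right (↑F : Set Edg)
    (by exact_mod_cast TBE_subset_RE :
      (↑(TBE (c1 - 3 * R) (c1 - R) (c2 - 3 * R) (c2 + 3 * R)) : Set Edg) ⊆ _))
  have ht' := ht.mono (Set.inter_subset_inter_right (↑F : Set Edg)
    (by exact_mod_cast LRE_subset_RE :
      (↑(LRE (c1 - 3 * R) (c1 + 3 * R) (c2 + R) (c2 + 3 * R)) : Set Edg) ⊆ _))
  have hb' := hb.mono (Set.inter_subset_inter_right (↑F : Set Edg)
    (by exact_mod_cast LRE_subset_RE :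
      (↑(LRE (c1 - 3 * R) (c1 + 3 * R) (c2 - 3 * R) (c2 - R)) : Set Edg) ⊆ _))
  have mTR : Reach (↑F ∩ ↑(RE (c1 - 3 * R) (c1 + 3 * R) (c2 - 3 * R)
      (c2 + 3 * R))) (c1 - 3 * (R : ℤ), yt) (xr, c2 - 3 * (R : ℤ)) :=
    cross_meet (a := c1 + R) (b := c1 + 3 * R) (c := c2 + R) (d := c2 + 3 * R) (by omega)
      (by omega) le_rfl (by omega) (by omega) le_rfl ht' (by simp only; omega)
      (by simp only; omega) hr' (by simp only; omega) (by simp only; omega)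
  have mTL : Reach (↑F ∩ ↑(RE (c1 - 3 * R) (c1 + 3 * R) (c2 - 3 * R)
      (c2 + 3 * R))) (c1 - 3 * (R : ℤ), yt) (xl, c2 - 3 * (R : ℤ)) :=
    cross_meet (a := c1 - 3 * R) (b := c1 - R) (c := c2 + R) (d := c2 + 3 * R) le_rfl
      (by omega) (by omega) (by omega) (by omega) le_rfl ht' (by simp only; omega)
      (by simp only; omega) hl' (by simp only; omega) (by simp only; omega)
  have mBR : Reach (↑F ∩ ↑(RE (c1 - 3 * R) (c1 + 3 * R) (c2 - 3 * R)
      (c2 + 3 * R))) (c1 - 3 * (R : ℤ), yb) (xr, c2 - 3 * (R : ℤ)) :=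
    cross_meet (a := c1 + R) (b := c1 + 3 * R) (c := c2 - 3 * R) (d := c2 - R) (by omega)
      (by omega) le_rfl le_rfl (by omega) (by omega) hb' (by simp only; omega)
      (by simp only; omega) hr' (by simp only; omega) (by simp only; omega)
  have i1 : (↑F : Set Edg) ∩ ↑(RE (c1 - 3 * R) (c1 + 3 * R) (c2 - 3 * R) (c2 + 3 * R)) ⊆ ↑F :=
    Set.inter_subset_left
  refine ⟨(xr, c2 - 3 * (R : ℤ)), ?_, ?_⟩
  · -- the circuit meets the crossings
    intro u v huc hvc huv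
    unfold sd at huc hvc
    simp only at huc hvc
    obtain ⟨w, h1, h2, h3⟩ := first_exit (a := c1 - 3 * R) (b := c1 + 3 * R) (c := c2 - 3 * R)
      (d := c2 + 3 * R) (by unfold inR; omega) huv (by omega)
    unfold inR at h1
    rcases h2 with h2 | h2 | h2 | h2
    · have m : Reach (↑F ∩ ↑(RE (c1 - 3 * R) (c1 + 3 * R) (c2 - 3 * R)
          (c2 + 3 * R))) w (xl, c2 - 3 * (R : ℤ)) :=
        cross_meet (a := c1 - 3 * R) (b := c1 - R) (c := c2 - 3 * R) (d := c2 + 3 * R)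
          (by omega) (by omega) (by omega) le_rfl (by omega) le_rfl h3.symm (by omega)
          (by omega) hl' (by simp only; omega) (by simp only; omega)
      exact (h3.trans (m.trans (mTL.symm.trans mTR))).mono i1
    · exact (cross_meet (a := c1 + R) (b := c1 + 3 * R) (c := c2 - 3 * R)
        (d := c2 + 3 * R) (by omega) (by omega) le_rfl le_rfl (by omega) le_rfl h3 (by omega)
        h2.ge hr' (by simp only; omega) (by simp only; omega)).mono i1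
    · have m : Reach (↑F ∩ ↑(RE (c1 - 3 * R) (c1 + 3 * R) (c2 - 3 * R)
          (c2 + 3 * R))) (c1 - 3 * (R : ℤ), yb) w :=
        cross_meet (a := c1 - 3 * R) (b := c1 + 3 * R) (c := c2 - 3 * R) (d := c2 - R)
          le_rfl (by omega) le_rfl (by omega) (by omega) (by omega) hb' (by simp only; omega)
          (by simp only; omega) h3.symm (by omega) (by omega)
      exact (h3.trans (m.symm.trans mBR)).mono i1
    · have m : Reach (↑F ∩ ↑(RE (c1 - 3 * R) (c1 + 3 * R) (c2 - 3 * R)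
          (c2 + 3 * R))) (c1 - 3 * (R : ℤ), yt) u :=
        cross_meet (a := c1 - 3 * R) (b := c1 + 3 * R) (c := c2 + R) (d := c2 + 3 * R)
          le_rfl (by omega) le_rfl (by omega) (by omega) le_rfl ht' (by simp only; omega)
          (by simp only; omega) h3 (by omega) (by omega)
      exact (m.symm.trans mTR).mono i1
  · -- the circuit blocks the dual paths
    intro g hg hd
    unfold sd at hg
    simp only at hg
    set z0 : Vtx := (xr, c2 - 3 * (R : ℤ)) with hz0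
    obtain ⟨K, hK⟩ : ∃ K, K = Wt (↑F) z0 := ⟨_, rfl⟩
    rw [← hK] at hd
    have kr := Wt_path (Reach.refl (↑F : Set Edg) z0) hr
    have kl := Wt_path ((mTR.symm.trans mTL).mono i1) hl
    have kt := Wt_path (mTR.symm.mono i1) ht
    have kb := Wt_path (mBR.symm.mono i1) hb
    rw [← hK] at kr kl kt kb
    obtain ⟨w, w', hw, hw', hadj, hpath⟩ := first_leave (a := c1 - 3 * R) (b := c1 + 3 * R - 1)
      (c := c2 - 3 * R) (d := c2 + 3 * R - 1) (u := (c1, c2)) (v := g)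
      (by unfold inR; simp only; omega) (reach_dl.mpr hd) (by unfold inR; omega)
    have ext : ∀ A B C D : ℤ, A ≤ c1 - 3 * R → c1 + 3 * R - 1 ≤ B → C ≤ c2 - 3 * R →
        c2 + 3 * R - 1 ≤ D → (inR A B C D w') →
        Reach (dl '' Kᶜ ∩ ↑(RE A B C D)) (c1, c2) w' := by
      intro A B C D hA hB hC hD hin
      have s1 : dl '' Kᶜ ∩ ↑(RE (c1 - 3 * R) (c1 + 3 * R - 1) (c2 - 3 * R) (c2 + 3 * R - 1)) ⊆
          dl '' Kᶜ ∩ ↑(RE A B C D) :=
        Set.inter_subset_inter_right _ (by exact_mod_cast RE_subset hA hB hC hD)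
      refine (hpath.mono s1).trans (Adj.reach ?_)
      obtain ⟨e, he, hcase⟩ := hadj
      refine ⟨e, ⟨he, Finset.mem_coe.mpr ?_⟩, hcase⟩
      obtain ⟨x0, y0, bo⟩ := e
      unfold inR at hw hin
      cases bo
      · simp only [src_mk, tgt_false] at hcase
        rw [mem_RE_false]
        rcases hcase with ⟨h3, h4⟩ | ⟨h3, h4⟩
        · rw [← h3] at hw; rw [← h4] at hin; simp only at hw hin; omega
        · rw [← h4] at hw; rw [← h3] at hin; simp only at hw hin; omega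
      · simp only [src_mk, tgt_true] at hcase
        rw [mem_RE_true]
        rcases hcase with ⟨h3, h4⟩ | ⟨h3, h4⟩
        · rw [← h3] at hw; rw [← h4] at hin; simp only at hw hin; omega
        · rw [← h4] at hw; rw [← h3] at hin; simp only at hw hin; omega
    have hdir : (w'.1 = c1 + 3 * R ∧ (c2 - 3 * R ≤ w'.2 ∧ w'.2 ≤ c2 + 3 * R - 1)) ∨
        (w'.1 = c1 - 3 * R - 1 ∧ (c2 - 3 * R ≤ w'.2 ∧ w'.2 ≤ c2 + 3 * R - 1)) ∨
        (w'.2 = c2 + 3 * R ∧ (c1 - 3 * R ≤ w'.1 ∧ w'.1 ≤ c1 + 3 * R - 1)) ∨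
        (w'.2 = c2 - 3 * R - 1 ∧ (c1 - 3 * R ≤ w'.1 ∧ w'.1 ≤ c1 + 3 * R - 1)) := by
      obtain ⟨⟨x0, y0, bo⟩, -, hcase⟩ := hadj
      unfold inR at hw hw'
      cases bo
      · simp only [src_mk, tgt_false] at hcase
        rcases hcase with ⟨h3, h4⟩ | ⟨h3, h4⟩
        · rw [← h3] at hw; rw [← h4] at hw' ⊢; simp only at hw hw' ⊢; omega
        · rw [← h4] at hw; rw [← h3] at hw' ⊢; simp only at hw hw' ⊢; omega
      · simp only [src_mk, tgt_true] at hcase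
        rcases hcase with ⟨h3, h4⟩ | ⟨h3, h4⟩
        · rw [← h3] at hw; rw [← h4] at hw' ⊢; simp only at hw hw' ⊢; omega
        · rw [← h4] at hw; rw [← h3] at hw' ⊢; simp only at hw hw' ⊢; omega
    rcases hdir with ⟨k1, k2⟩ | ⟨k1, k2⟩ | ⟨k1, k2⟩ | ⟨k1, k2⟩
    · refine block_v (K := K) (a := c1 + R) (b := c1 + 3 * R) (c := c2 - 3 * R)
        (d := c2 + 3 * R) (A := c1 - 3 * R) (B := c1 + 3 * R) (by omega) hxr' kr
        le_rfl (by simp only; omega) k1.ge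
        (ext (c1 - 3 * R) (c1 + 3 * R) (c2 - 3 * R) (c2 + 3 * R - 1) (by omega) (by omega)
          (by omega) (by omega) (by unfold inR; omega))
    · refine block_v (K := K) (a := c1 - 3 * R) (b := c1 - R) (c := c2 - 3 * R)
        (d := c2 + 3 * R) (A := c1 - 3 * R - 1) (B := c1 + 3 * R - 1) (by omega) hxl' kl
        le_rfl (f := w') (g := (c1, c2)) (by omega) (by simp only; omega)
        (ext (c1 - 3 * R - 1) (c1 + 3 * R - 1) (c2 - 3 * R) (c2 + 3 * R - 1) (by omega)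
          (by omega) (by omega) (by omega) (by unfold inR; omega)).symm
    · refine block_h (K := K) (a := c1 - 3 * R) (b := c1 + 3 * R) (c := c2 + R)
        (d := c2 + 3 * R) (C := c2 - 3 * R) (D := c2 + 3 * R) (by omega) hyt' kt
        le_rfl (by simp only; omega) k1.ge
        (ext (c1 - 3 * R) (c1 + 3 * R - 1) (c2 - 3 * R) (c2 + 3 * R) (by omega) (by omega)
          (by omega) (by omega) (by unfold inR; omega))
    · refine block_h (K := K) (a := c1 - 3 * R) (b := c1 + 3 * R) (c := c2 - 3 * R)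
        (d := c2 - R) (C := c2 - 3 * R - 1) (D := c2 + 3 * R - 1) (by omega) hyb' kb
        le_rfl (f := w') (g := (c1, c2)) (by omega) (by simp only; omega)
        (ext (c1 - 3 * R) (c1 + 3 * R - 1) (c2 - 3 * R - 1) (c2 + 3 * R - 1) (by omega)
          (by omega) (by omega) (by omega) (by unfold inR; omega)).symm

theorem mem_Sq {T : Finset Vtx} {x : Vtx} : x ∈ Sq T ↔
    x ∈ T ∧ (x.1 + 1, x.2) ∈ T ∧ (x.1, x.2 + 1) ∈ T ∧ (x.1 + 1, x.2 + 1) ∈ T := by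
  unfold Sq
  rw [Finset.mem_filter]

/-- `v` is a corner of the face `y` -/
def cor (y v : Vtx) : Prop := (v.1 = y.1 ∨ v.1 = y.1 + 1) ∧ (v.2 = y.2 ∨ v.2 = y.2 + 1)

theorem Sq_iff {T : Finset Vtx} {y : Vtx} : y ∈ Sq T ↔ ∀ v, cor y v → v ∈ T := by
  obtain ⟨y1, y2⟩ := y
  rw [mem_Sq]
  constructor
  · rintro ⟨h1, h2, h3, h4⟩ ⟨v1, v2⟩ ⟨h5, h6⟩
    simp only at h2 h3 h4 h5 h6
    rcases h5 with rfl | rfl <;> rcases h6 with rfl | rfl <;> assumption
  · intro h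
    exact ⟨h _ ⟨Or.inl rfl, Or.inl rfl⟩, h _ ⟨Or.inr rfl, Or.inl rfl⟩, h _ ⟨Or.inl rfl, Or.inr rfl⟩,
      h _ ⟨Or.inr rfl, Or.inr rfl⟩⟩

/-- an edge of the lattice of faces next to a face in `Sq T` -/
theorem mem_U {T : Finset Vtx} {e : Edg} (h : src e ∈ Sq T ∨ tgt e ∈ Sq T) : e ∈ dmp (ES T) := by
  rw [mem_dmp, mem_ES]
  obtain ⟨x, y, _ | _⟩ := e
  · have e1 : dl.symm (x, y, false) = (x, y + 1, true) := rfl
    rw [e1, src_mk, tgt_true]
    rw [src_mk, tgt_false, Sq_iff, Sq_iff] at h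
    rcases h with h | h
    · exact ⟨h _ ⟨Or.inl rfl, Or.inr rfl⟩, h _ ⟨Or.inr rfl, Or.inr rfl⟩⟩
    · exact ⟨h _ ⟨Or.inl rfl, Or.inl rfl⟩, h _ ⟨Or.inr rfl, Or.inl rfl⟩⟩
  · have e1 : dl.symm (x, y, true) = (x + 1, y, false) := rfl
    rw [e1, src_mk, tgt_false]
    rw [src_mk, tgt_true, Sq_iff, Sq_iff] at h
    rcases h with h | h
    · exact ⟨h _ ⟨Or.inr rfl, Or.inl rfl⟩, h _ ⟨Or.inr rfl, Or.inr rfl⟩⟩
    · exact ⟨h _ ⟨Or.inl rfl, Or.inl rfl⟩, h _ ⟨Or.inl rfl, Or.inr rfl⟩⟩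

theorem ES_Sq_sub (T : Finset Vtx) : ES (Sq T) ⊆ dmp (ES T) := fun e he =>
  mem_U (Or.inl (mem_ES.mp he).1)

/-- a face next to a face in `Sq T` has a corner in `T` -/
theorem cor_of_adj {T : Finset Vtx} {x y : Vtx} (hx : x ∈ Sq T) (h : Adj Set.univ x y) :
    ∃ v, cor y v ∧ v ∈ T := by
  rw [Sq_iff] at hx
  obtain ⟨⟨a, b, bo⟩, -, h⟩ := h
  cases bo
  · rw [src_mk, tgt_false] at h
    rcases h with ⟨h1, h2⟩ | ⟨h1, h2⟩
    · subst h1 h2
      exact ⟨(a, b + 1), ⟨Or.inl rfl, Or.inl rfl⟩, hx _ ⟨Or.inl rfl, Or.inr rfl⟩⟩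
    · subst h1 h2
      exact ⟨(a, b + 1), ⟨Or.inl rfl, Or.inr rfl⟩, hx _ ⟨Or.inl rfl, Or.inl rfl⟩⟩
  · rw [src_mk, tgt_true] at h
    rcases h with ⟨h1, h2⟩ | ⟨h1, h2⟩
    · subst h1 h2
      exact ⟨(a + 1, b), ⟨Or.inl rfl, Or.inl rfl⟩, hx _ ⟨Or.inr rfl, Or.inl rfl⟩⟩
    · subst h1 h2
      exact ⟨(a + 1, b), ⟨Or.inr rfl, Or.inl rfl⟩, hx _ ⟨Or.inl rfl, Or.inl rfl⟩⟩

/-- the first step out of `S` -/
theorem exit_S {S : Finset Vtx} {K : Set Edg} {a b c d : ℤ} {u v : Vtx} (hu : u ∈ S) (hv : v ∉ S)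
    (h : Reach (K ∩ ↑(RE a b c d)) u v) : ∃ x y, x ∈ S ∧ y ∉ S ∧ inR a b c d y ∧
      Reach (K ∩ ↑(ES S)) u x ∧ ∃ e ∈ K, (src e = x ∧ tgt e = y) ∨ (src e = y ∧ tgt e = x) := by
  have key : ∀ w, Reach (K ∩ ↑(RE a b c d)) u w → (w ∈ S ∧ Reach (K ∩ ↑(ES S)) u w) ∨
      ∃ x y, x ∈ S ∧ y ∉ S ∧ inR a b c d y ∧
      Reach (K ∩ ↑(ES S)) u x ∧ ∃ e ∈ K, (src e = x ∧ tgt e = y) ∨ (src e = y ∧ tgt e = x) := by
    intro w hw
    induction hw with
    | refl => exact Or.inl ⟨hu, Reach.refl _ _⟩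
    | @tail w w' _ hs ih =>
      rcases ih with ⟨ih1, ih2⟩ | ih
      · obtain ⟨e, ⟨heK, heR⟩, hc⟩ := hs
        by_cases hw' : w' ∈ S
        · refine Or.inl ⟨hw', ih2.trans (Adj.reach ⟨e, ⟨heK, ?_⟩, hc⟩)⟩
          rw [Finset.mem_coe, mem_ES]
          rcases hc with ⟨h1, h2⟩ | ⟨h1, h2⟩
          · rw [h1, h2]; exact ⟨ih1, hw'⟩
          · rw [h1, h2]; exact ⟨hw', ih1⟩
        · refine Or.inr ⟨w, w', ih1, hw', ?_, ih2, e, heK, hc⟩
          have hh := H973.mem_RE_ends (Finset.mem_coe.mp heR)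
          rcases hc with ⟨h1, h2⟩ | ⟨h1, h2⟩
          · rw [← h2]; exact hh.2
          · rw [← h1]; exact hh.1
      · exact Or.inr ih
  rcases key v h with h1 | h1
  · exact absurd h1.1 hv
  · exact h1

/-- from the face `z` to the closed circuit -/
theorem to_circuit {T : Finset Vtx} {F : Finset Edg} {I : Set Vtx} {z z0 : Vtx} {m : ℕ}
    (hz : ∀ v, sd v z ≤ m + 1 → v ∈ Sq T) (hI : ∀ u ∈ I, m < sd (u.1 - 1, u.2 - 1) z)
    {H : Set Edg} (hH : H ⊆ dl '' (↑(ES T) \ ↑F))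
    (hblk : ∀ g : Vtx, m < sd g z → ¬ DReach (Wt H z0)ᶜ z g) :
    ∃ f, Reach H z0 f ∧ DReach (↑(ES T) \ WI ↑F I) z f := by
  by_contra hno
  push Not at hno
  obtain ⟨M, hM⟩ : ∃ M : Set Edg, M = {e | dl e ∉ Wt H z0} := ⟨_, rfl⟩
  have hMm : ∀ e, dl e ∉ Wt H z0 → e ∈ M := fun e he => by rw [hM]; exact he
  have hFM : (F : Set Edg) ⊆ M := by
    intro e he
    apply hMm
    intro h
    obtain ⟨e', he', hee⟩ := hH h.1
    have : e' = e := dl.injective hee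
    rw [this] at he'
    exact he'.2 he
  have blocked : ∀ w : Vtx, m < sd (w.1 - 1, w.2 - 1) z → ¬ Reach M (z.1 + 1, z.2 + 1) w := by
    intro w hw hr
    apply hblk (w.1 - 1, w.2 - 1) hw
    rw [← reach_dl]
    have h1 := (trl (-1) (-1)).reach hr
    obtain ⟨z1, z2⟩ := z
    obtain ⟨w1, w2⟩ := w
    rw [trl_ψ, trl_ψ] at h1
    simp only [add_neg_cancel_right] at h1
    simp only
    refine Reach.mono ?_ h1
    rintro _ ⟨e, he, rfl⟩
    refine ⟨dl e, ?_, ?_⟩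
    · rw [hM] at he
      exact he
    · obtain ⟨x, y, _ | _⟩ := e
      · rw [dl_f, dl_t, trl_φ]; rfl
      · rw [dl_t, dl_f, trl_φ]; rfl
  have key : ∀ k : ℕ, k ≤ m + 1 → DReach (↑(ES T) \ WI ↑F I) z (z.1, z.2 - k) ∧
      Reach M (z.1 + 1, z.2 + 1) (z.1 + 1, z.2 - k + 1) := by
    intro k
    induction k with
    | zero =>
      intro _
      simp only [Nat.cast_zero, sub_zero]
      exact ⟨DReach.refl _ _, Reach.refl _ _⟩
    | succ k ih =>
      intro hk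
      obtain ⟨h1, h2⟩ := ih (by omega)
      obtain ⟨X, hX⟩ : ∃ X, X = z.1 := ⟨_, rfl⟩
      obtain ⟨Y, hY⟩ : ∃ Y, Y = z.2 - k := ⟨_, rfl⟩
      rw [← hX, ← hY] at h1
      rw [← hX, ← hY] at h2
      have hn : ¬ Reach H z0 (X, Y) := fun h => hno _ h h1
      have m1 : ((X + 1, Y, false) : Edg) ∈ M := by
        apply hMm
        intro h
        rw [dl_f, add_sub_cancel_right] at h
        exact hn h.2
      have m2 : ((X, Y, true) : Edg) ∈ M := by
        apply hMm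
        intro h
        rw [dl_t] at h
        have := Wt_tgt h
        rw [tgt_false, sub_add_cancel] at this
        exact hn this
      have r1 : Reach M (z.1 + 1, z.2 + 1) (X + 1, Y) := by
        rw [← hX]
        refine h2.trans (Adj.reach ⟨_, m1, Or.inr ⟨rfl, rfl⟩⟩)
      have r2 : Reach M (z.1 + 1, z.2 + 1) (X, Y) :=
        r1.trans (Adj.reach ⟨_, m2, Or.inr ⟨rfl, rfl⟩⟩)
      have m3 : ((X, Y, true) : Edg) ∉ WI ↑F I := by
        rintro ⟨h3, t, h4, h5⟩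
        exact blocked t (hI t h4) (r2.trans (h5.mono hFM).symm)
      have m4 : ((X, Y, true) : Edg) ∈ ES T := by
        have h3 : (X, Y) ∈ Sq T := by
          apply hz
          unfold sd
          simp only
          omega
        rw [Sq_iff] at h3
        rw [mem_ES, src_mk, tgt_true]
        exact ⟨h3 _ ⟨Or.inl rfl, Or.inl rfl⟩, h3 _ ⟨Or.inr rfl, Or.inl rfl⟩⟩
      have e1 : (z.1, z.2 - ((k + 1 : ℕ) : ℤ)) = (X, Y - 1) := by
        rw [hX, hY]
        push_cast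
        rw [sub_sub]
      have e2 : (z.1 + 1, z.2 - ((k + 1 : ℕ) : ℤ) + 1) = (X + 1, Y) := by
        rw [hX, hY]
        push_cast
        rw [Prod.mk.injEq]
        constructor
        · rfl
        · ring
      rw [e1, e2]
      refine ⟨h1.trans (DAdj.reach ⟨(X, Y, true), ⟨m4, m3⟩, Or.inr ⟨rfl, rfl⟩⟩), r1⟩
  have h1 := (key (m + 1) le_rfl).2
  refine blocked _ ?_ h1
  unfold sd
  simp only
  omega

/-- a closed dual path from the neighbourhood of `P` through the boundary -/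
def E4 (T : Finset Vtx) (P : Vtx) (r : ℕ) (a b c d : ℤ) (G : Finset Edg) : Prop :=
  ∃ u v : Vtx, sd u P ≤ r ∧ v ∉ Sq T ∧
    Reach (↑(G ∪ (RE a b c d \ dmp (ES T))) ∩ ↑(RE a b c d)) u v

/-- The deterministic part of the lower bound. -/
theorem not_sep {f : ℂ → ℂ} {ε θ1 θ2 : ℝ} {F : Finset Edg} (hF : F ⊆ ES (TD f ε)) {P z : Vtx}
    {r s : ℕ} (hr : 1 ≤ r) (hs : 1 ≤ s) (hP : ∀ v, sd v P ≤ 3 * r + 1 → v ∈ Sq (TD f ε))
    (hz : ∀ v, sd v z ≤ 3 * s + 1 → v ∈ Sq (TD f ε)) (hD : 3 * r + 3 * s ≤ sd P z)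
    (hI : ∀ u ∈ near f ε θ1 θ2, 3 * s + 2 ≤ sd u z) {a b c d : ℤ}
    (ht : ∀ y, inR a b c d y → y ∉ Sq (TD f ε) → (∃ v, cor y v ∧ v ∈ TD f ε) →
      y ∈ touch f ε θ2 (θ1 + 2 * Real.pi))
    (e1 : Jn (BX P r) (BX z s) (dmp (ES (TD f ε) \ F) ∩ ES (Sq (TD f ε))))
    (e2 : CG (z.1 - 3 * s) (z.2 - 3 * s) z s (dmp (ES (TD f ε) \ F) ∩ ES (Sq (TD f ε))))
    (e3 : BL (Sq (TD f ε)) P r (3 * r) (dmp (ES (TD f ε) \ F) ∩ ES (Sq (TD f ε))))
    (e4 : E4 (TD f ε) P r a b c d (dmp (ES (TD f ε) \ F))) :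
    ¬ Sep f ε θ1 θ2 z F := by
  obtain ⟨T, hT⟩ : ∃ T, T = TD f ε := ⟨_, rfl⟩
  obtain ⟨G, hG⟩ : ∃ G, G = dmp (ES T \ F) := ⟨_, rfl⟩
  obtain ⟨H, hH⟩ : ∃ H, H = G ∩ ES (Sq T) := ⟨_, rfl⟩
  unfold Pool.Agent.J6H18.SL.Sep
  rw [← hT] at hF hP hz ht e1 e2 e3 e4 ⊢
  rw [← hG] at e1 e2 e3 e4
  rw [← hH] at e1 e2 e3
  have hHG : H ⊆ G := by rw [hH]; exact Finset.inter_subset_left
  have hHS : H ⊆ ES (Sq T) := by rw [hH]; exact Finset.inter_subset_right
  have hGd : (G : Set Edg) = dl '' (↑(ES T) \ ↑F) := by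
    rw [hG, coe_dmp, Finset.coe_sdiff]
  obtain ⟨u, v, huP, hvS, huv⟩ := e4
  have huS : u ∈ Sq T := hP u (by omega)
  obtain ⟨x, y, hx, hy, hyR, hux, e, heK, hexy⟩ := exit_S huS hvS huv
  have heU : e ∈ dmp (ES T) := by
    apply mem_U
    rcases hexy with ⟨h1, -⟩ | ⟨-, h1⟩
    · rw [h1]; exact Or.inl hx
    · rw [h1]; exact Or.inr hx
  have heG : e ∈ G := by
    rw [Finset.mem_coe, Finset.mem_union] at heK
    rcases heK with h | h
    · exact h
    · exact absurd heU (Finset.mem_sdiff.mp h).2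
  have hux' : Reach (↑H) u x := by
    refine hux.mono ?_
    rintro e' ⟨h1, h2⟩
    rw [Finset.mem_coe, Finset.mem_union] at h1
    rw [Finset.mem_coe] at h2 ⊢
    rw [hH, Finset.mem_inter]
    rcases h1 with h | h
    · exact ⟨h, h2⟩
    · exact absurd (ES_Sq_sub T h2) (Finset.mem_sdiff.mp h).2
  have hadj : Adj Set.univ x y := ⟨e, trivial, hexy⟩
  have hxy1 : sd x y ≤ 1 := by
    obtain ⟨⟨x0, y0, bo⟩, -, h⟩ := hadj
    cases bo
    · rw [src_mk, tgt_false] at h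
      rcases h with ⟨h1, h2⟩ | ⟨h1, h2⟩ <;> subst h1 h2 <;> unfold sd <;> simp only <;> omega
    · rw [src_mk, tgt_true] at h
      rcases h with ⟨h1, h2⟩ | ⟨h1, h2⟩ <;> subst h1 h2 <;> unfold sd <;> simp only <;> omega
  have hxP : 3 * r ≤ sd x P := by
    by_contra hlt
    apply hy
    apply hP
    have := sd_tri y x P
    rw [sd_comm y x] at this
    omega
  obtain ⟨zP, hzP⟩ := e3
  have c1 : Reach (↑H) zP u := hzP.meet hHS huS huP hxP hux'
  obtain ⟨a', ha', b', hb', hab⟩ := e1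
  have ha1 : sd a' P ≤ r := by
    rw [mem_BX] at ha'
    unfold sd
    omega
  have hb1 : sd b' z ≤ s := by
    rw [mem_BX] at hb'
    unfold sd
    omega
  have d1 := sd_tri P a' z
  have d2 := sd_tri P b' z
  rw [sd_comm P a'] at d1
  rw [sd_comm P b'] at d2
  have haS : a' ∈ Sq T := hP a' (by omega)
  have c2 : Reach (↑H) zP a' := hzP.meet hHS haS ha1 (by omega) hab
  obtain ⟨z0, hub1, hub2⟩ := hub4 hs e2
  have c3 : Reach (↑H) b' z0 := hub1 b' a' hb1 (by omega) hab.symm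
  obtain ⟨fc, hf1, hf2⟩ := to_circuit (T := T) (F := F) (I := near f ε θ1 θ2) (z := z) (z0 := z0)
    (m := 3 * s) hz (by
      intro w hw
      have := hI w hw
      obtain ⟨w1, w2⟩ := w
      unfold sd at this ⊢
      simp only at this ⊢
      omega) (H := (↑H : Set Edg)) (by
      rw [← hGd]
      exact_mod_cast hHG) hub2
  intro hsep
  have hytouch := ht y hyR hy (cor_of_adj hx hadj)
  refine hsep y hytouch (hf2.trans ?_)
  have hall : Reach (↑G) fc y := by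
    have h1 : Reach (↑H) fc x :=
      hf1.symm.trans (c3.symm.trans (hab.symm.trans (c2.symm.trans (c1.trans hux'))))
    exact (h1.mono (by exact_mod_cast hHG)).trans (Adj.reach ⟨e, by exact_mod_cast heG, hexy⟩)
  rw [hGd, reach_dl] at hall
  refine hall.mono ?_
  rintro e' ⟨h1, h2⟩
  exact ⟨h1, fun h3 => h2 h3.1⟩

end Pool.Agent.J6H22.SL
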